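import Pool.Agent.Helper42.RZ.Defs

/-! # Riesz energy: elementary facts on the coordinates -/

set_option autoImplicit false

open MeasureTheory Set Metric Filter Topology
open scoped ENNReal

namespace Pool.Agent.Helper42.RZ

theorem continuous_pt : Continuous pt := by
  unfold pt
  refine (PiLp.continuous_toLp 2 _).comp ?_
  refine continuous_pi fun i => ?_
  fin_cases i <;> simp <;> fun_prop

theorem measurable_pt : Measurable pt := continuous_pt.measurable

theorem measurable_co : Measurable co := by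
  unfold co
  refine Measurable.prodMk ?_ ?_
  · refine Complex.measurable_arg.comp ?_
    have : (fun x : E3 => (⟨x 0, x 1⟩ : ℂ)) = fun x : E3 => ((x 0 : ℝ) : ℂ) + ((x 1 : ℝ) : ℂ) * Complex.I := by
      funext x
      apply Complex.ext <;> simp
    rw [this]
    fun_prop
  · fun_prop

theorem norm_pt {v : ℝ × ℝ} (hv : |v.2| ≤ 1) : ‖pt v‖ = 1 := by
  have h1 : 0 ≤ 1 - v.2 ^ 2 := by
    have := sq_le_one_iff_abs_le_one _ |>.2 hv
    linarith
  rw [EuclideanSpace.norm_eq]
  simp only [pt, Fin.sum_univ_three, Real.norm_eq_abs, sq_abs]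
  simp only [Matrix.cons_val_zero, Matrix.cons_val_one, Matrix.cons_val]
  rw [mul_pow, mul_pow, Real.sq_sqrt h1, Real.sqrt_eq_one]
  have := Real.sin_sq_add_cos_sq v.1
  nlinarith

theorem co_pt {v : ℝ × ℝ} (hv : v ∈ Q0) : co (pt v) = v := by
  obtain ⟨φ, z⟩ := v
  obtain ⟨⟨h1, h2⟩, h3, h4⟩ := hv
  simp only at h1 h2 h3 h4
  have h5 : 0 < Real.sqrt (1 - z ^ 2) := Real.sqrt_pos.2 (by nlinarith)
  have e0 : pt (φ, z) 0 = Real.sqrt (1 - z ^ 2) * Real.cos φ := rfl
  have e1 : pt (φ, z) 1 = Real.sqrt (1 - z ^ 2) * Real.sin φ := rfl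
  have e2 : pt (φ, z) 2 = z := rfl
  rw [co, e0, e1, e2]
  congr 1
  have h6 : (⟨Real.sqrt (1 - z ^ 2) * Real.cos φ, Real.sqrt (1 - z ^ 2) * Real.sin φ⟩ : ℂ) =
      (Real.sqrt (1 - z ^ 2) : ℝ) * (Complex.cos φ + Complex.sin φ * Complex.I) := by
    apply Complex.ext
    · simp [← Complex.ofReal_cos, ← Complex.ofReal_sin]
    · simp [← Complex.ofReal_cos, ← Complex.ofReal_sin]
  rw [h6]
  exact Complex.arg_mul_cos_add_sin_mul_I h5 ⟨h1, h2⟩

theorem pt_co {x : E3} (hx : ‖x‖ = 1) (hx2 : |x 2| < 1) : pt (co x) = x ∧ co x ∈ Q0 := by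
  have h0 : x 0 ^ 2 + x 1 ^ 2 + x 2 ^ 2 = 1 := by
    have := EuclideanSpace.norm_eq x
    rw [hx, Fin.sum_univ_three] at this
    simp only [Real.norm_eq_abs, sq_abs] at this
    have h := congrArg (· ^ 2) this
    simp only [one_pow] at h
    rw [Real.sq_sqrt (by positivity)] at h
    exact h.symm
  have h1 : Real.sqrt (1 - x 2 ^ 2) = ‖(⟨x 0, x 1⟩ : ℂ)‖ := by
    rw [Complex.norm_eq_sqrt_sq_add_sq]
    congr 1
    simp only
    linarith
  constructor
  · ext i
    fin_cases i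
    · change Real.sqrt (1 - x 2 ^ 2) * Real.cos (Complex.arg ⟨x 0, x 1⟩) = x 0
      rw [h1, Complex.norm_mul_cos_arg]
    · change Real.sqrt (1 - x 2 ^ 2) * Real.sin (Complex.arg ⟨x 0, x 1⟩) = x 1
      rw [h1, Complex.norm_mul_sin_arg]
    · rfl
  · exact ⟨⟨Complex.neg_pi_lt_arg _, Complex.arg_le_pi _⟩, abs_lt.1 hx2⟩

theorem volume_Q0 : (volume : Measure (ℝ × ℝ)) Q0 = ENNReal.ofReal (4 * Real.pi) := by
  rw [Q0, Measure.volume_eq_prod, Measure.prod_prod, Real.volume_Ioc, Real.volume_Ioo,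
    ← ENNReal.ofReal_mul (by have := Real.pi_pos; linarith)]
  congr 1
  ring

theorem measurableSet_Q0 : MeasurableSet Q0 := measurableSet_Ioc.prod measurableSet_Ioo

instance : IsProbabilityMeasure
    ((ENNReal.ofReal (4 * Real.pi))⁻¹ • (volume : Measure (ℝ × ℝ)).restrict Q0) := by
  refine ⟨?_⟩
  rw [Measure.smul_apply, Measure.restrict_apply_univ, volume_Q0, smul_eq_mul]
  refine ENNReal.inv_mul_cancel ?_ ENNReal.ofReal_ne_top
  rw [Ne, ENNReal.ofReal_eq_zero, not_le]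
  have := Real.pi_pos
  linarith

instance : IsProbabilityMeasure sig := Measure.isProbabilityMeasure_map measurable_pt.aemeasurable

theorem sig_apply {B : Set E3} (hB : MeasurableSet B) :
    sig B = (ENNReal.ofReal (4 * Real.pi))⁻¹ * volume (pt ⁻¹' B ∩ Q0) := by
  rw [sig, Measure.map_apply measurable_pt hB, Measure.smul_apply,
    Measure.restrict_apply (measurable_pt hB), smul_eq_mul]

theorem sig_real {B : Set E3} (hB : MeasurableSet B) :
    sig.real B = (4 * Real.pi)⁻¹ * volume.real (pt ⁻¹' B ∩ Q0) := by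
  rw [Measure.real, sig_apply hB, ENNReal.toReal_mul, ENNReal.toReal_inv,
    ENNReal.toReal_ofReal (by positivity)]
  rfl

/-- almost every point is on the sphere, away from the poles -/
theorem ae_sig : ∀ᵐ x ∂sig, ‖x‖ = 1 ∧ |x 2| < 1 := by
  have hm : MeasurableSet {x : E3 | ‖x‖ = 1 ∧ |x 2| < 1} := by
    have h1 : MeasurableSet {x : E3 | ‖x‖ = 1} :=
      measurableSet_eq_fun measurable_norm measurable_const
    have h2 : MeasurableSet {x : E3 | |x 2| < 1} :=
      measurableSet_lt (by fun_prop) measurable_const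
    exact h1.inter h2
  rw [sig, ae_map_iff measurable_pt.aemeasurable hm]
  refine Measure.ae_smul_measure ?_ _
  refine (ae_restrict_iff' measurableSet_Q0).2 (Filter.Eventually.of_forall ?_)
  rintro v ⟨-, h3, h4⟩
  have h5 : |v.2| < 1 := abs_lt.2 ⟨h3, h4⟩
  exact ⟨norm_pt h5.le, h5⟩

theorem ae_norm_sig : ∀ᵐ x ∂sig, ‖x‖ = 1 := ae_sig.mono fun _ h => h.1

end Pool.Agent.Helper42.RZ
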