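import Mathlib

/-!
# Second order term of the minimal Riesz energy on the sphere (MP_e739cf_an): definitions

`PS x k` is the sum of `k (|x i - x j|)` over ordered pairs `i ≠ j`; `bg k` is the mean value of
`k (|x - y|)` over `y` in the unit sphere (`x` any point of the sphere).
-/

set_option autoImplicit false

open MeasureTheory Set Metric Filter Topology
open scoped ENNReal

namespace Pool.Agent.Helper42.RZ

/-- three dimensional Euclidean space -/
abbrev E3 : Type := EuclideanSpace ℝ (Fin 3)

/-- the Riesz kernel as a function of the distance; `K s 0 = 0` for `s > 0` -/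
noncomputable def K (s r : ℝ) : ℝ := r ^ (-s)

/-- sum over ordered pairs of distinct indices -/
noncomputable def PS {N : ℕ} (x : Fin N → E3) (k : ℝ → ℝ) : ℝ :=
  ∑ p ∈ (Finset.univ : Finset (Fin N)).offDiag, k ‖x p.1 - x p.2‖

/-- `N` distinct points of the unit sphere -/
def Conf {N : ℕ} (x : Fin N → E3) : Prop := Function.Injective x ∧ ∀ i, ‖x i‖ = 1

/-- minimal Riesz energy of `N` points of the unit sphere -/
noncomputable def minE (s : ℝ) (N : ℕ) : ℝ := sInf {e | ∃ x : Fin N → E3, Conf x ∧ PS x (K s) = e}

/-- the continuous energy `2 ^ (1 - s) / (2 - s)` -/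
noncomputable def Cc (s : ℝ) : ℝ := 2 ^ (1 - s) / (2 - s)

/-- mean value over the sphere of a function of the distance -/
noncomputable def bg (k : ℝ → ℝ) : ℝ := ∫ r in (0 : ℝ)..2, k r * (r / 2)

/-! ## Equal area coordinates and the invariant probability measure -/

/-- equal area coordinates -/
noncomputable def pt (v : ℝ × ℝ) : E3 :=
  !₂[Real.sqrt (1 - v.2 ^ 2) * Real.cos v.1, Real.sqrt (1 - v.2 ^ 2) * Real.sin v.1, v.2]

/-- the inverse of `pt` on the sphere -/
noncomputable def co (x : E3) : ℝ × ℝ := (Complex.arg ⟨x 0, x 1⟩, x 2)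

/-- the domain of the coordinates -/
def Q0 : Set (ℝ × ℝ) := Ioc (-Real.pi) Real.pi ×ˢ Ioo (-1) 1

/-- the invariant probability measure on the unit sphere, as a measure on `E3` -/
noncomputable def sig : Measure E3 :=
  Measure.map pt ((ENNReal.ofReal (4 * Real.pi))⁻¹ • (volume : Measure (ℝ × ℝ)).restrict Q0)

/-! ## Random half spaces -/

/-- the law of a random half space `{x | τ < ⟪u, x⟫}`, `u` uniform on the sphere, `τ` uniform on
`[-1, 1]` -/
noncomputable def plm : Measure (E3 × ℝ) :=
  sig.prod ((2 : ℝ≥0∞)⁻¹ • (volume : Measure ℝ).restrict (Ioc (-1) 1))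

/-- the half space -/
def hs (ω : E3 × ℝ) : Set E3 := {x | ω.2 < inner ℝ ω.1 x}

/-! ## Localisation -/

/-- the localising function: a mixture of the functions `exp (- w u)`, `exp (-2J) < w < exp (-J)`,
with the probability density `1 / (J w)` -/
noncomputable def HJ (J u : ℝ) : ℝ :=
  J⁻¹ * ∫ w in (Real.exp (-2 * J))..(Real.exp (-J)), Real.exp (-w * u) / w

end Pool.Agent.Helper42.RZ
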