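import Pool.Agent.Helper42.RZ.St.S2
import Pool.Agent.Helper42.RZ.St.S3
import Pool.Agent.Helper42.RZ.St.S4
import Pool.Agent.Helper42.RZ.St.S6b
import Pool.Agent.Helper42.RZ.St.S9
import Pool.Agent.Helper42.RZ.St.S10
import Pool.Agent.Helper42.RZ.St.S10b

/-! # RZ-S11: upper bound by pasting, `M` planes -/

set_option autoImplicit false

open MeasureTheory Set Metric Filter Topology
open scoped ENNReal

namespace Pool.Agent.Helper42.RZ.S11

/-! ## Labels -/

section Labels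

variable {M : ℕ}

/-- same side of all half spaces -/
def Same (ω : Fin M → E3 × ℝ) (x z : E3) : Prop := ∀ m, x ∈ hs (ω m) ↔ z ∈ hs (ω m)

/-- the cell with label `e` -/
def cell (ω : Fin M → E3 × ℝ) (e : Fin M → Bool) : Set E3 :=
  {z | ∀ m, z ∈ hs (ω m) ↔ e m = true}

open Classical in
/-- the label of a point -/
noncomputable def lab (ω : Fin M → E3 × ℝ) (x : E3) : Fin M → Bool := fun m => decide (x ∈ hs (ω m))

theorem lab_eq {ω : Fin M → E3 × ℝ} {x : E3} {m : Fin M} : lab ω x m = true ↔ x ∈ hs (ω m) := by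
  classical
  rw [lab, decide_eq_true_iff]

theorem mem_cell {ω : Fin M → E3 × ℝ} {e : Fin M → Bool} {x : E3} :
    x ∈ cell ω e ↔ e = lab ω x := by
  constructor
  · intro h
    funext m
    have h1 := h m
    rw [← lab_eq] at h1
    rcases h2 : lab ω x m with _ | _
    · rw [h2] at h1
      rcases h3 : e m with _ | _
      · rfl
      · rw [h3] at h1; simp at h1
    · rw [h2] at h1
      exact h1.1 rfl
  · rintro rfl m
    exact lab_eq.symm

theorem same_iff {ω : Fin M → E3 × ℝ} {x z : E3} : Same ω x z ↔ lab ω x = lab ω z := by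
  rw [← mem_cell]
  constructor
  · intro h m
    rw [lab_eq]
    exact (h m).symm
  · intro h m
    have := h m
    rw [lab_eq] at this
    exact this.symm

theorem measurableSet_hs' {α : Type*} [MeasurableSpace α] {f : α → E3 × ℝ} {h : α → E3}
    (hf : Measurable f) (hh : Measurable h) : MeasurableSet {a | h a ∈ hs (f a)} :=
  (hf.prodMk hh) measurableSet_hs

theorem measurableSet_cell (ω : Fin M → E3 × ℝ) (e : Fin M → Bool) : MeasurableSet (cell ω e) := by
  have : cell ω e = ⋂ m, {z | z ∈ hs (ω m) ↔ e m = true} := by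
    ext z; simp [cell]
  rw [this]
  refine MeasurableSet.iInter fun m => ?_
  have h1 : MeasurableSet {z : E3 | z ∈ hs (ω m)} :=
    measurableSet_hs' measurable_const measurable_id
  by_cases h : e m = true
  · have h2 : {z : E3 | z ∈ hs (ω m) ↔ e m = true} = {z : E3 | z ∈ hs (ω m)} := by
      ext z; simp [h]
    rw [h2]; exact h1
  · have h2 : {z : E3 | z ∈ hs (ω m) ↔ e m = true} = {z : E3 | z ∈ hs (ω m)}ᶜ := by
      ext z; simp [h]
    rw [h2]; exact h1.compl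

theorem measurableSet_same {α : Type*} [MeasurableSpace α] {f : α → Fin M → E3 × ℝ}
    {h h' : α → E3} (hf : Measurable f) (hh : Measurable h) (hh' : Measurable h') :
    MeasurableSet {a | Same (f a) (h a) (h' a)} := by
  have : {a | Same (f a) (h a) (h' a)} =
      ⋂ m, {a | h a ∈ hs (f a m) ↔ h' a ∈ hs (f a m)} := by
    ext z; simp [Same]
  rw [this]
  refine MeasurableSet.iInter fun m => ?_
  have hfm : Measurable fun a => f a m := (measurable_pi_apply m).comp hf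
  have h1 := measurableSet_hs' hfm hh
  have h2 := measurableSet_hs' hfm hh'
  have h3 : {a | h a ∈ hs (f a m) ↔ h' a ∈ hs (f a m)} =
      ({a | h a ∈ hs (f a m)} ∩ {a | h' a ∈ hs (f a m)}) ∪
      ({a | h a ∈ hs (f a m)}ᶜ ∩ {a | h' a ∈ hs (f a m)}ᶜ) := by
    ext a
    simp only [mem_union, mem_inter_iff, mem_compl_iff, Set.mem_ofPred_eq]
    tauto
  rw [h3]
  exact (h1.inter h2).union (h1.compl.inter h2.compl)

/-- sum over the cells -/
theorem sum_ind {α : Type*} {ω : Fin M → E3 × ℝ} (T : (Fin M → Bool) → Set α) (U : Set α)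
    (f : α → ℝ) (a : α) (x z : E3) (p : Prop)
    (h : ∀ e, a ∈ T e ↔ p ∧ x ∈ cell ω e ∧ z ∈ cell ω e) (hU : a ∈ U ↔ p ∧ Same ω x z) :
    ∑ e, (T e).indicator f a = U.indicator f a := by
  classical
  by_cases h1 : p ∧ Same ω x z
  · rw [Set.indicator_of_mem (hU.2 h1), Finset.sum_eq_single (lab ω x)]
    · refine Set.indicator_of_mem ((h _).2 ⟨h1.1, mem_cell.2 rfl, mem_cell.2 (same_iff.1 h1.2)⟩) f
    · intro e _ he
      refine Set.indicator_of_notMem (fun h2 => he ?_) f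
      exact mem_cell.1 ((h e).1 h2).2.1
    · intro h2
      exact absurd (Finset.mem_univ _) h2
  · rw [Set.indicator_of_notMem (fun h2 => h1 (hU.1 h2))]
    refine Finset.sum_eq_zero fun e _ => ?_
    refine Set.indicator_of_notMem (fun h2 => h1 ?_) f
    obtain ⟨h3, h4, h5⟩ := (h e).1 h2
    refine ⟨h3, same_iff.2 ?_⟩
    rw [← mem_cell.1 h4, ← mem_cell.1 h5]

end Labels

/-! ## The kernel -/

theorem measurable_K (s : ℝ) : Measurable (K s) := by
  unfold K
  exact measurable_id.pow_const _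

theorem K_nonneg {s r : ℝ} (hr : 0 ≤ r) : 0 ≤ K s r := Real.rpow_nonneg hr _

theorem K_anti {s : ℝ} (h0 : 0 < s) {r r' : ℝ} (hr : 0 < r) (h : r ≤ r') : K s r' ≤ K s r :=
  Real.rpow_le_rpow_of_nonpos hr h (by linarith)

theorem intOn_K {s : ℝ} (h2 : s < 2) : IntegrableOn (fun r => K s r * (r / 2)) (Ioo 0 2) := by
  have h1 : IntervalIntegrable (fun r : ℝ => r ^ (1 - s)) volume 0 2 :=
    intervalIntegral.intervalIntegrable_rpow' (by linarith)
  rw [intervalIntegrable_iff_integrableOn_Ioo_of_le (by norm_num)] at h1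
  have h3 : IntegrableOn (fun r : ℝ => r ^ (1 - s) / 2) (Ioo 0 2) := h1.div_const 2
  refine h3.congr_fun (fun r hr => ?_) measurableSet_Ioo
  have hr0 : (0 : ℝ) < r := hr.1
  have : r ^ (1 - s) = K s r * r := by
    rw [K, sub_eq_neg_add, Real.rpow_add hr0, Real.rpow_one]
  simp only [this]
  ring

theorem int_K {s : ℝ} (h2 : s < 2) :
    Integrable (fun q : E3 × E3 => K s ‖q.1 - q.2‖) (sig.prod sig) := by
  have hm : Measurable (fun q : E3 × E3 => K s ‖q.1 - q.2‖) :=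
    (measurable_K s).comp (measurable_fst.sub measurable_snd).norm
  rw [integrable_prod_iff hm.aestronglyMeasurable]
  have h1 : ∀ x : E3, ‖x‖ = 1 → Integrable (fun y => K s ‖x - y‖) sig := fun x hx =>
    (integrable_dist hx (measurable_K s)).2 (intOn_K h2)
  constructor
  · exact ae_norm_sig.mono fun x hx => h1 x hx
  · refine (integrable_const (bg (K s))).congr (ae_norm_sig.mono fun x hx => ?_)
    rw [← integral_dist hx (measurable_K s)]
    refine integral_congr_ae (Eventually.of_forall fun y => ?_)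
    simp only
    rw [Real.norm_of_nonneg (K_nonneg (norm_nonneg _))]

theorem anti {s : ℝ} (h0 : 0 < s) (M : ℕ) {r r' : ℝ} (hr : 0 < r) (h : r ≤ r') (h4 : r' ≤ 4) :
    K s r' * (1 - r' / 4) ^ M ≤ K s r * (1 - r / 4) ^ M := by
  refine mul_le_mul (K_anti h0 hr h) (pow_le_pow_left₀ (by linarith) (by linarith) M) ?_
    (K_nonneg hr.le)
  exact pow_nonneg (by linarith) M

/-! ## Averages over the planes -/

theorem ind_eq {α β : Type*} {S : Set α} {T : Set β} {f : α → ℝ} {g : β → ℝ} {a : α} {b : β}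
    (h : a ∈ S ↔ b ∈ T) (hfg : f a = g b) : S.indicator f a = T.indicator g b := by
  by_cases h1 : a ∈ S
  · rw [Set.indicator_of_mem h1, Set.indicator_of_mem (h.1 h1), hfg]
  · rw [Set.indicator_of_notMem h1, Set.indicator_of_notMem (fun h2 => h1 (h.2 h2))]

/-- the law of `M` random half spaces -/
noncomputable abbrev Pl (M : ℕ) : Measure (Fin M → E3 × ℝ) := Measure.pi fun _ : Fin M => plm

theorem W_avg {s : ℝ} (h0 : 0 < s) {Γ : Type} [MeasurableSpace Γ] (γ : Measure Γ)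
    [IsProbabilityMeasure γ] (a a' : Γ → E3) (ha : Measurable a) (ha' : Measurable a')
    (T : Set Γ) (hT : MeasurableSet T) (hu : ∀ θ ∈ T, ‖a θ‖ = 1 ∧ ‖a' θ‖ = 1) {d : ℝ}
    (hd : 0 < d) (hda : ∀ θ ∈ T, d ≤ ‖a θ - a' θ‖) (M : ℕ) :
    Integrable (fun ω : Fin M → E3 × ℝ => ∫ θ, (T ∩ {θ | Same ω (a θ) (a' θ)}).indicator
      (fun θ => K s ‖a θ - a' θ‖) θ ∂γ) (Pl M) ∧
    ∫ ω : Fin M → E3 × ℝ, ∫ θ, (T ∩ {θ | Same ω (a θ) (a' θ)}).indicator
      (fun θ => K s ‖a θ - a' θ‖) θ ∂γ ∂(Pl M) ≤ γ.real T * (K s d * (1 - d / 4) ^ M) := by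
  classical
  let F : (Fin M → E3 × ℝ) × Γ → ℝ := fun q =>
    {q : (Fin M → E3 × ℝ) × Γ | q.2 ∈ T ∧ Same q.1 (a q.2) (a' q.2)}.indicator
      (fun q => K s ‖a q.2 - a' q.2‖) q
  have hset : MeasurableSet {q : (Fin M → E3 × ℝ) × Γ | q.2 ∈ T ∧ Same q.1 (a q.2) (a' q.2)} :=
    (measurable_snd hT).inter
      (measurableSet_same measurable_fst (ha.comp measurable_snd) (ha'.comp measurable_snd))
  have hKm : Measurable fun q : (Fin M → E3 × ℝ) × Γ => K s ‖a q.2 - a' q.2‖ :=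
    (measurable_K s).comp ((ha.comp measurable_snd).sub (ha'.comp measurable_snd)).norm
  have hFm : Measurable F := hKm.indicator hset
  have hF0 : ∀ q, 0 ≤ F q := fun q => Set.indicator_nonneg (fun _ _ => K_nonneg (norm_nonneg _)) q
  have hFb : ∀ q, F q ≤ K s d := by
    intro q
    by_cases h : q ∈ {q : (Fin M → E3 × ℝ) × Γ | q.2 ∈ T ∧ Same q.1 (a q.2) (a' q.2)}
    · simp only [F, Set.indicator_of_mem h]
      exact K_anti h0 hd (hda _ h.1)
    · simp only [F, Set.indicator_of_notMem h]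
      exact K_nonneg hd.le
  have hFi : Integrable F ((Pl M).prod γ) := by
    refine Integrable.of_bound hFm.aestronglyMeasurable (K s d) (Eventually.of_forall fun q => ?_)
    rw [Real.norm_of_nonneg (hF0 q)]
    exact hFb q
  have hFeq : ∀ ω : Fin M → E3 × ℝ, ∀ θ, (T ∩ {θ | Same ω (a θ) (a' θ)}).indicator
      (fun θ => K s ‖a θ - a' θ‖) θ = F (ω, θ) := by
    intro ω θ
    simp only [F, Set.indicator_apply]
    rfl
  simp only [hFeq]
  refine ⟨hFi.integral_prod_left, ?_⟩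
  have hsw := integral_integral_swap (μ := Pl M) (ν := γ) (f := fun ω θ => F (ω, θ)) hFi
  rw [hsw]
  have hin : ∀ θ, ∫ ω, F (ω, θ) ∂(Pl M) ≤ T.indicator (fun _ => K s d * (1 - d / 4) ^ M) θ := by
    intro θ
    by_cases h : θ ∈ T
    · rw [Set.indicator_of_mem h]
      obtain ⟨h1, h2⟩ := hu θ h
      have h3 : ∀ ω : Fin M → E3 × ℝ, F (ω, θ) =
          {ω : Fin M → E3 × ℝ | ∀ m, a θ ∈ hs (ω m) ↔ a' θ ∈ hs (ω m)}.indicator
            (fun _ => K s ‖a θ - a' θ‖) ω := by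
        intro ω
        exact ind_eq ⟨fun hh => hh.2, fun hh => ⟨h, hh⟩⟩ rfl
      have hms : MeasurableSet {ω : Fin M → E3 × ℝ | ∀ m, a θ ∈ hs (ω m) ↔ a' θ ∈ hs (ω m)} :=
        measurableSet_same measurable_id measurable_const measurable_const
      simp only [h3]
      rw [integral_indicator_const _ hms, planes_real h1 h2, smul_eq_mul, mul_comm]
      refine anti h0 M hd (hda θ h) ?_
      calc ‖a θ - a' θ‖ ≤ ‖a θ‖ + ‖a' θ‖ := norm_sub_le _ _
        _ ≤ 4 := by rw [h1, h2]; norm_num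
    · rw [Set.indicator_of_notMem h]
      have h3 : ∀ ω : Fin M → E3 × ℝ, F (ω, θ) = 0 := fun ω =>
        Set.indicator_of_notMem (fun hh => h hh.1) _
      simp [h3]
  calc ∫ θ, ∫ ω, F (ω, θ) ∂(Pl M) ∂γ ≤
      ∫ θ, T.indicator (fun _ => K s d * (1 - d / 4) ^ M) θ ∂γ := by
        refine integral_mono hFi.integral_prod_right ?_ hin
        exact (integrable_const _).indicator hT
    _ = γ.real T * (K s d * (1 - d / 4) ^ M) := by
        rw [integral_indicator_const _ hT, smul_eq_mul]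

theorem bg_cut {s : ℝ} (M : ℕ) {ρ : ℝ} (hρ0 : 0 < ρ) (hρ : ρ ≤ 2) :
    bg (fun r => (Iio ρ).indicator (fun r => K s r * (1 - r / 4) ^ M) r) =
      ∫ r in (0 : ℝ)..ρ, K s r * (1 - r / 4) ^ M * (r / 2) := by
  rw [bg, intervalIntegral.integral_of_le (by norm_num), intervalIntegral.integral_of_le hρ0.le,
    integral_Ioc_eq_integral_Ioo, integral_Ioc_eq_integral_Ioo]
  have h1 : ∀ r : ℝ, (Iio ρ).indicator (fun r => K s r * (1 - r / 4) ^ M) r * (r / 2) =
      (Iio ρ).indicator (fun r => K s r * (1 - r / 4) ^ M * (r / 2)) r := by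
    intro r
    by_cases h : r ∈ Iio ρ
    · rw [Set.indicator_of_mem h, Set.indicator_of_mem h]
    · rw [Set.indicator_of_notMem h, Set.indicator_of_notMem h, zero_mul]
  simp only [h1]
  rw [setIntegral_indicator measurableSet_Iio]
  congr 2
  ext r
  simp only [mem_inter_iff, mem_Ioo, mem_Iio]
  constructor
  · rintro ⟨⟨h, -⟩, h'⟩; exact ⟨h, h'⟩
  · rintro ⟨h, h'⟩; exact ⟨⟨h, by linarith⟩, h'⟩

theorem U_avg {s : ℝ} (h2 : s < 2) (I : Set E3) (hI : MeasurableSet I) {ρ : ℝ}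
    (hρ0 : 0 < ρ) (hρ : ρ ≤ 2) (M : ℕ) :
    Integrable (fun ω : Fin M → E3 × ℝ => ∫ q, {q : E3 × E3 | q.1 ∈ I ∧ ‖q.1 - q.2‖ < ρ ∧
      Same ω q.1 q.2}.indicator (fun q => K s ‖q.1 - q.2‖) q ∂(sig.prod sig)) (Pl M) ∧
    ∫ ω : Fin M → E3 × ℝ, ∫ q, {q : E3 × E3 | q.1 ∈ I ∧ ‖q.1 - q.2‖ < ρ ∧
      Same ω q.1 q.2}.indicator (fun q => K s ‖q.1 - q.2‖) q ∂(sig.prod sig) ∂(Pl M) =
      sig.real I * ∫ r in (0 : ℝ)..ρ, K s r * (1 - r / 4) ^ M * (r / 2) := by
  classical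
  let S : Set ((Fin M → E3 × ℝ) × (E3 × E3)) :=
    {q | q.2.1 ∈ I ∧ ‖q.2.1 - q.2.2‖ < ρ ∧ Same q.1 q.2.1 q.2.2}
  let F : (Fin M → E3 × ℝ) × (E3 × E3) → ℝ := fun q =>
    S.indicator (fun q => K s ‖q.2.1 - q.2.2‖) q
  have hm1 : Measurable fun q : (Fin M → E3 × ℝ) × (E3 × E3) => q.2.1 :=
    measurable_fst.comp measurable_snd
  have hm2 : Measurable fun q : (Fin M → E3 × ℝ) × (E3 × E3) => q.2.2 :=
    measurable_snd.comp measurable_snd
  have hset : MeasurableSet S :=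
    (hm1 hI).inter ((measurableSet_lt (hm1.sub hm2).norm measurable_const).inter
      (measurableSet_same measurable_fst hm1 hm2))
  have hKm : Measurable fun q : (Fin M → E3 × ℝ) × (E3 × E3) => K s ‖q.2.1 - q.2.2‖ :=
    (measurable_K s).comp (hm1.sub hm2).norm
  have hFm : Measurable F := hKm.indicator hset
  have hKi : Integrable (fun q : (Fin M → E3 × ℝ) × (E3 × E3) => K s ‖q.2.1 - q.2.2‖)
      ((Pl M).prod (sig.prod sig)) := (int_K h2).comp_snd (Pl M)
  have hFi : Integrable F ((Pl M).prod (sig.prod sig)) := hKi.indicator hset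
  have hFeq : ∀ ω : Fin M → E3 × ℝ, ∀ q, {q : E3 × E3 | q.1 ∈ I ∧ ‖q.1 - q.2‖ < ρ ∧
      Same ω q.1 q.2}.indicator (fun q => K s ‖q.1 - q.2‖) q = F (ω, q) := by
    intro ω θ
    simp only [F, Set.indicator_apply]
    rfl
  simp only [hFeq]
  refine ⟨hFi.integral_prod_left, ?_⟩
  have hsw := integral_integral_swap (μ := Pl M) (ν := sig.prod sig)
    (f := fun ω q => F (ω, q)) hFi
  rw [hsw]
  set k : ℝ → ℝ := fun r => (Iio ρ).indicator (fun r => K s r * (1 - r / 4) ^ M) r with hk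
  have hkm : Measurable k := by
    refine Measurable.indicator ?_ measurableSet_Iio
    exact (measurable_K s).mul (by fun_prop)
  have hin : ∀ q : E3 × E3, ‖q.1‖ = 1 → ‖q.2‖ = 1 → ∫ ω, F (ω, q) ∂(Pl M) =
      I.indicator (fun _ => 1) q.1 * k ‖q.1 - q.2‖ := by
    intro q h1 h3
    by_cases h : q.1 ∈ I ∧ ‖q.1 - q.2‖ < ρ
    · rw [Set.indicator_of_mem h.1, one_mul, hk]
      simp only
      rw [Set.indicator_of_mem (show ‖q.1 - q.2‖ ∈ Iio ρ from h.2)]
      have h3' : ∀ ω : Fin M → E3 × ℝ, F (ω, q) =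
          {ω : Fin M → E3 × ℝ | ∀ m, q.1 ∈ hs (ω m) ↔ q.2 ∈ hs (ω m)}.indicator
            (fun _ => K s ‖q.1 - q.2‖) ω := by
        intro ω
        exact ind_eq ⟨fun hh => hh.2.2, fun hh => ⟨h.1, h.2, hh⟩⟩ rfl
      have hms : MeasurableSet {ω : Fin M → E3 × ℝ | ∀ m, q.1 ∈ hs (ω m) ↔ q.2 ∈ hs (ω m)} :=
        measurableSet_same measurable_id measurable_const measurable_const
      simp only [h3']
      rw [integral_indicator_const _ hms, planes_real h1 h3, smul_eq_mul, mul_comm]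
    · have h3' : ∀ ω : Fin M → E3 × ℝ, F (ω, q) = 0 := fun ω =>
        Set.indicator_of_notMem (fun hh => h ⟨hh.1, hh.2.1⟩) _
      simp only [h3', integral_zero]
      by_cases h4 : q.1 ∈ I
      · have h5 : ‖q.1 - q.2‖ ∉ Iio ρ := fun h5 => h ⟨h4, h5⟩
        rw [hk]
        simp only
        rw [Set.indicator_of_notMem h5, mul_zero]
      · rw [Set.indicator_of_notMem h4, zero_mul]
  have hae1 : ∀ᵐ q : E3 × E3 ∂(sig.prod sig), ‖q.1‖ = 1 :=
    Measure.quasiMeasurePreserving_fst.ae ae_norm_sig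
  have hae2 : ∀ᵐ q : E3 × E3 ∂(sig.prod sig), ‖q.2‖ = 1 :=
    Measure.quasiMeasurePreserving_snd.ae ae_norm_sig
  have hae : (fun q : E3 × E3 => ∫ ω, F (ω, q) ∂(Pl M)) =ᵐ[sig.prod sig]
      fun q => I.indicator (fun _ => 1) q.1 * k ‖q.1 - q.2‖ := by
    filter_upwards [hae1, hae2] with q h1 h3 using hin q h1 h3
  have hint : Integrable (fun q : E3 × E3 => I.indicator (fun _ => (1 : ℝ)) q.1 *
      k ‖q.1 - q.2‖) (sig.prod sig) := hFi.integral_prod_right.congr hae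
  rw [integral_congr_ae hae, integral_prod _ hint]
  have h4 : ∀ᵐ x ∂sig, ∫ z, I.indicator (fun _ => (1 : ℝ)) x * k ‖x - z‖ ∂sig =
      I.indicator (fun _ => bg k) x := by
    filter_upwards [ae_norm_sig] with x hx
    rw [integral_const_mul, integral_dist hx hkm]
    by_cases h : x ∈ I
    · rw [Set.indicator_of_mem h, Set.indicator_of_mem h, one_mul]
    · rw [Set.indicator_of_notMem h, Set.indicator_of_notMem h, zero_mul]
  rw [integral_congr_ae h4, integral_indicator_const _ hI, smul_eq_mul, hk, bg_cut M hρ0 hρ]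

/-! ## One configuration of the planes -/

theorem sum_cells {Γ : Type} [MeasurableSpace Γ] (γ : Measure Γ) {a a' : Γ → E3}
    (ha : Measurable a) (ha' : Measurable a') {T T' : Set Γ} (hT : MeasurableSet T)
    (hT' : MeasurableSet T') {f : Γ → ℝ} (hf : IntegrableOn f (T ∩ T') γ) {M : ℕ}
    (ω : Fin M → E3 × ℝ) :
    ∑ e : Fin M → Bool, ∫ θ in ({θ | θ ∈ T ∧ a θ ∈ cell ω e} ∩ {θ | θ ∈ T' ∧ a' θ ∈ cell ω e}),
      f θ ∂γ = ∫ θ, (T ∩ T' ∩ {θ | Same ω (a θ) (a' θ)}).indicator f θ ∂γ := by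
  classical
  have hm : ∀ e : Fin M → Bool,
      MeasurableSet ({θ | θ ∈ T ∧ a θ ∈ cell ω e} ∩ {θ | θ ∈ T' ∧ a' θ ∈ cell ω e}) := fun e =>
    (hT.inter (ha (measurableSet_cell ω e))).inter (hT'.inter (ha' (measurableSet_cell ω e)))
  have h1 : ∀ e : Fin M → Bool,
      ∫ θ in ({θ | θ ∈ T ∧ a θ ∈ cell ω e} ∩ {θ | θ ∈ T' ∧ a' θ ∈ cell ω e}), f θ ∂γ =
      ∫ θ, ({θ | θ ∈ T ∧ a θ ∈ cell ω e} ∩ {θ | θ ∈ T' ∧ a' θ ∈ cell ω e}).indicator f θ ∂γ :=
    fun e => (integral_indicator (hm e)).symm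
  simp only [h1]
  rw [← integral_finsetSum]
  · refine integral_congr_ae (Eventually.of_forall fun θ => ?_)
    simp only
    refine sum_ind (ω := ω) _ _ f θ (a θ) (a' θ) (θ ∈ T ∧ θ ∈ T') (fun e => ?_) ?_
    · simp only [mem_inter_iff, Set.mem_ofPred_eq]
      tauto
    · simp only [mem_inter_iff, Set.mem_ofPred_eq]
  · intro e _
    rw [integrable_indicator_iff (hm e)]
    exact hf.mono_set fun θ hθ => ⟨hθ.1.1, hθ.2.1⟩

theorem U_low {s : ℝ} (h2 : s < 2) {P I : Set E3} (hP : MeasurableSet P) (hI : MeasurableSet I)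
    (hIP : I ⊆ P) {ρ : ℝ} (hρ : ∀ x ∈ I, ∀ y, ‖y‖ = 1 → ‖x - y‖ < ρ → y ∈ P) {M : ℕ}
    (ω : Fin M → E3 × ℝ) :
    ∫ q, {q : E3 × E3 | q.1 ∈ I ∧ ‖q.1 - q.2‖ < ρ ∧
      Same ω q.1 q.2}.indicator (fun q => K s ‖q.1 - q.2‖) q ∂(sig.prod sig) ≤
    ∑ e : Fin M → Bool, ∫ x in P ∩ cell ω e, ∫ z in P ∩ cell ω e, K s ‖x - z‖ ∂sig ∂sig := by
  classical
  have hm : ∀ e : Fin M → Bool, MeasurableSet (P ∩ cell ω e) := fun e =>
    hP.inter (measurableSet_cell ω e)
  have h1 : ∀ e : Fin M → Bool,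
      ∫ x in P ∩ cell ω e, ∫ z in P ∩ cell ω e, K s ‖x - z‖ ∂sig ∂sig =
      ∫ q, ((P ∩ cell ω e) ×ˢ (P ∩ cell ω e)).indicator (fun q : E3 × E3 => K s ‖q.1 - q.2‖) q
        ∂(sig.prod sig) := by
    intro e
    rw [integral_indicator ((hm e).prod (hm e)),
      setIntegral_prod (fun q : E3 × E3 => K s ‖q.1 - q.2‖) (int_K h2).integrableOn]
  simp only [h1]
  rw [← integral_finsetSum]
  swap
  · intro e _
    exact (int_K h2).indicator ((hm e).prod (hm e))
  have hsum : ∀ q : E3 × E3, ∑ e : Fin M → Bool,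
      ((P ∩ cell ω e) ×ˢ (P ∩ cell ω e)).indicator (fun q : E3 × E3 => K s ‖q.1 - q.2‖) q =
      {q : E3 × E3 | (q.1 ∈ P ∧ q.2 ∈ P) ∧ Same ω q.1 q.2}.indicator
        (fun q => K s ‖q.1 - q.2‖) q := by
    intro q
    refine sum_ind _ _ _ q q.1 q.2 (q.1 ∈ P ∧ q.2 ∈ P) (fun e => ?_) Iff.rfl
    simp only [mem_prod, mem_inter_iff]
    tauto
  simp only [hsum]
  have hae1 : ∀ᵐ q : E3 × E3 ∂(sig.prod sig), ‖q.2‖ = 1 :=
    Measure.quasiMeasurePreserving_snd.ae ae_norm_sig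
  have hsame : MeasurableSet {q : E3 × E3 | Same ω q.1 q.2} :=
    measurableSet_same (f := fun _ : E3 × E3 => ω) measurable_const measurable_fst measurable_snd
  have hd : MeasurableSet {q : E3 × E3 | ‖q.1 - q.2‖ < ρ} :=
    measurableSet_lt (measurable_fst.sub measurable_snd).norm measurable_const
  refine integral_mono_ae ?_ ?_ ?_
  · refine (int_K h2).indicator ?_
    exact (measurable_fst hI).inter (hd.inter hsame)
  · refine (int_K h2).indicator ?_
    exact ((measurable_fst hP).inter (measurable_snd hP)).inter hsame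
  · filter_upwards [hae1] with q hq
    by_cases h : q ∈ {q : E3 × E3 | q.1 ∈ I ∧ ‖q.1 - q.2‖ < ρ ∧ Same ω q.1 q.2}
    · rw [Set.indicator_of_mem h, Set.indicator_of_mem
        (show q ∈ {q : E3 × E3 | (q.1 ∈ P ∧ q.2 ∈ P) ∧ Same ω q.1 q.2} from
          ⟨⟨hIP h.1, hρ _ h.1 _ hq h.2.1⟩, h.2.2⟩)]
    · rw [Set.indicator_of_notMem h]
      exact Set.indicator_nonneg (fun _ _ => K_nonneg (norm_nonneg _)) q

theorem exists_sep {N : ℕ} {x : Fin N → E3} (hx : Conf x) :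
    ∃ δ : ℝ, 0 < δ ∧ ∀ i j, i ≠ j → δ ≤ ‖x i - x j‖ := by
  classical
  rcases (Finset.univ : Finset (Fin N)).offDiag.eq_empty_or_nonempty with h | h
  · refine ⟨1, one_pos, fun i j hij => ?_⟩
    have : (i, j) ∈ (Finset.univ : Finset (Fin N)).offDiag := by simp [hij]
    rw [h] at this
    exact absurd this (Finset.notMem_empty _)
  · obtain ⟨p, hp, hmin⟩ := Finset.exists_min_image _
      (fun p : Fin N × Fin N => ‖x p.1 - x p.2‖) h
    refine ⟨‖x p.1 - x p.2‖, ?_, fun i j hij => hmin (i, j) (by simp [hij])⟩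
    rw [norm_pos_iff, sub_ne_zero]
    intro h1
    exact (Finset.mem_offDiag.1 hp).2.2 (hx.1 h1)

theorem sig_sphere (B : Set E3) : sig.real (sphere (0 : E3) 1 ∩ B) = sig.real B := by
  rw [Measure.real, Measure.real]
  congr 1
  refine measure_congr ?_
  filter_upwards [ae_norm_sig] with x hx
  simp only [eq_iff_iff]
  change (x ∈ sphere (0 : E3) 1 ∧ x ∈ B) ↔ x ∈ B
  simp [hx]

theorem pointwise {s : ℝ} (h0 : 0 < s) (h2 : s < 2) {η A ρ : ℝ} (hη1 : η < 1)
    (hA : 1 ≤ A) {N₀ N₁ : ℕ} (hN₀ : 1 ≤ N₀) (hN₁ : 1 ≤ N₁) (hAN : (N₀ : ℝ) * A ^ 2 = N₁) {n : ℕ}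
    {P D I : Fin n → Set E3} {S : Fin n → E3 → E3}
    (hP : ∀ k, MeasurableSet (P k)) (hD : ∀ k, MeasurableSet (D k)) (hI : ∀ k, MeasurableSet (I k))
    (hS : ∀ k, Measurable (S k)) (hPd : ∀ k k', k ≠ k' → Disjoint (P k) (P k'))
    (hPs : ∀ k, P k ⊆ sphere 0 1) (hSm : ∀ k, MapsTo (S k) (D k) (P k))
    (hSd : ∀ k, ∀ y ∈ D k, ∀ y' ∈ D k, (1 - η) / A * ‖y - y'‖ ≤ ‖S k y - S k y'‖)
    (hSa : ∀ k (B : Set E3), MeasurableSet B →
      sig.real (D k ∩ S k ⁻¹' B) = A ^ 2 * sig.real (B ∩ P k))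
    (hIP : ∀ k, I k ⊆ P k) (hρ : ∀ k, ∀ x ∈ I k, ∀ y, ‖y‖ = 1 → ‖x - y‖ < ρ → y ∈ P k)
    {Q : Fin N₁ → Set E3} {u : Fin N₁ → E3 → E3} (hQ : ∀ j, MeasurableSet (Q j))
    (hu : ∀ j, Measurable (u j)) (hQd : ∀ j j', j ≠ j' → Disjoint (Q j) (Q j'))
    (hun : ∀ j y, ‖y‖ = 1 → ‖u j y‖ = 1)
    (hua : ∀ j (B : Set E3), MeasurableSet B → sig.real (u j ⁻¹' B) = N₁ * sig.real (B ∩ Q j))
    {Γ : Type} [MeasurableSpace Γ] (γ : Measure Γ) [IsProbabilityMeasure γ]
    {g : Γ → E3 ≃ₗᵢ[ℝ] E3} (hg : ∀ x, Measurable fun θ => g θ x)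
    (hgs : ∀ x, ‖x‖ = 1 → Measure.map (fun θ => g θ x) γ = sig)
    (x : Fin N₀ → E3) (hx : Conf x) {M : ℕ} (ω : Fin M → E3 × ℝ) (β : ℝ)
    (hβ : ∀ N' : ℕ, β ≤ minE s N' - 2 * N₁ * Cc s * N' + Cc s * (N₁ : ℝ) ^ 2) :
    β ≤ ∑ k, ∑ p ∈ (Finset.univ : Finset (Fin N₀)).offDiag,
        ∫ θ, ({θ | g θ (x p.1) ∈ D k} ∩ {θ | g θ (x p.2) ∈ D k} ∩
          {θ | Same ω (S k (g θ (x p.1))) (S k (g θ (x p.2)))}).indicator
          (fun θ => K s ‖S k (g θ (x p.1)) - S k (g θ (x p.2))‖) θ ∂γ -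
      (N₁ : ℝ) ^ 2 * ∑ k, ∫ q, {q : E3 × E3 | q.1 ∈ I k ∧ ‖q.1 - q.2‖ < ρ ∧
        Same ω q.1 q.2}.indicator (fun q => K s ‖q.1 - q.2‖) q ∂(sig.prod sig) := by
  classical
  have hA0 : 0 < A := by linarith
  have hb : 0 < (1 - η) / A := div_pos (by linarith) hA0
  set i0 : Fin N₀ := ⟨0, hN₀⟩ with hi0
  set R : Set E3 := sphere 0 1 \ ⋃ k, P k with hR
  have hRm : MeasurableSet R := isClosed_sphere.measurableSet.diff (MeasurableSet.iUnion hP)
  let y : ((Fin n × (Fin M → Bool)) ⊕ Fin N₁) → Fin N₀ → Γ → E3 := fun l i θ =>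
    Sum.elim (fun ke : Fin n × (Fin M → Bool) => S ke.1 (g θ (x i)))
      (fun j => u j (g θ (x i0))) l
  let C : ((Fin n × (Fin M → Bool)) ⊕ Fin N₁) → Set E3 := fun l =>
    Sum.elim (fun ke : Fin n × (Fin M → Bool) => P ke.1 ∩ cell ω ke.2) (fun j => R ∩ Q j) l
  let Ev : ((Fin n × (Fin M → Bool)) ⊕ Fin N₁) → Fin N₀ → Set Γ := fun l i =>
    Sum.elim (fun ke : Fin n × (Fin M → Bool) =>
        {θ | θ ∈ {θ | g θ (x i) ∈ D ke.1} ∧ S ke.1 (g θ (x i)) ∈ cell ω ke.2})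
      (fun j => if i = i0 then {θ | u j (g θ (x i0)) ∈ R ∩ Q j} else ∅) l
  have hga : ∀ (x : E3) (B : Set E3), ‖x‖ = 1 → MeasurableSet B →
      γ.real {θ | g θ x ∈ B} = sig.real B := by
    intro x B h1 hB
    rw [Measure.real, Measure.real, ← hgs x h1, Measure.map_apply (hg x) hB]
    rfl
  have hSg : ∀ k i, Measurable fun θ => S k (g θ (x i)) := fun k i => (hS k).comp (hg (x i))
  have hCm : ∀ l, MeasurableSet (C l) := by
    rintro (⟨k, e⟩ | j)
    · exact (hP k).inter (measurableSet_cell ω e)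
    · exact hRm.inter (hQ j)
  have hCd : ∀ l l', l ≠ l' → Disjoint (C l) (C l') := by
    rintro (⟨k, e⟩ | j) (⟨k', e'⟩ | j') hl
    · by_cases hk : k = k'
      · subst hk
        have he : e ≠ e' := fun he => hl (by rw [he])
        refine Set.disjoint_left.2 fun z hz hz' => he ?_
        exact (mem_cell.1 hz.2).trans (mem_cell.1 hz'.2).symm
      · exact (hPd k k' hk).mono inter_subset_left inter_subset_left
    · refine Set.disjoint_left.2 fun z hz hz' => hz'.1.2 (mem_iUnion.2 ⟨k, hz.1⟩)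
    · refine Set.disjoint_left.2 fun z hz hz' => hz.1.2 (mem_iUnion.2 ⟨k', hz'.1⟩)
    · have hj : j ≠ j' := fun hj => hl (by rw [hj])
      exact (hQd j j' hj).mono inter_subset_right inter_subset_right
  have key := paste h0 h2 γ N₀ y Ev C N₁ ?_ ?_ hCm hCd ?_ ?_ ?_ ?_ β hβ
  · refine key.trans (sub_le_sub ?_ (mul_le_mul_of_nonneg_left ?_ (by positivity)))
    · rw [Fintype.sum_sum_type, Fintype.sum_prod_type]
      have hz : ∀ j : Fin N₁, ∑ p ∈ (Finset.univ : Finset (Fin N₀)).offDiag,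
          ∫ θ in Ev (Sum.inr j) p.1 ∩ Ev (Sum.inr j) p.2,
            K s ‖y (Sum.inr j) p.1 θ - y (Sum.inr j) p.2 θ‖ ∂γ = 0 := by
        intro j
        refine Finset.sum_eq_zero fun p hp => ?_
        have hp1 : p.1 ≠ p.2 := (Finset.mem_offDiag.1 hp).2.2
        have hE : Ev (Sum.inr j) p.1 ∩ Ev (Sum.inr j) p.2 = ∅ := by
          by_cases h : p.1 = i0
          · have h' : p.2 ≠ i0 := fun h' => hp1 (h.trans h'.symm)
            simp only [Ev, Sum.elim_inr, h', if_false, inter_empty]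
          · simp only [Ev, Sum.elim_inr, h, if_false, empty_inter]
        rw [hE, setIntegral_empty]
      rw [Finset.sum_eq_zero (fun j _ => hz j), add_zero]
      refine Finset.sum_le_sum fun k _ => ?_
      rw [Finset.sum_comm]
      refine Finset.sum_le_sum fun p hp => le_of_eq ?_
      have hp1 : p.1 ≠ p.2 := (Finset.mem_offDiag.1 hp).2.2
      have hd : 0 < (1 - η) / A * ‖x p.1 - x p.2‖ := by
        refine mul_pos hb ?_
        rw [norm_pos_iff, sub_ne_zero]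
        exact fun h1 => hp1 (hx.1 h1)
      refine sum_cells γ (hSg k p.1) (hSg k p.2) (T := {θ | g θ (x p.1) ∈ D k})
        (T' := {θ | g θ (x p.2) ∈ D k}) (hg _ (hD k)) (hg _ (hD k))
        (f := fun θ => K s ‖S k (g θ (x p.1)) - S k (g θ (x p.2))‖) ?_ ω
      refine Measure.integrableOn_of_bounded (M := K s ((1 - η) / A * ‖x p.1 - x p.2‖))
        (measure_ne_top _ _) ?_ ?_
      · exact ((measurable_K s).comp ((hSg k p.1).sub (hSg k p.2)).norm).aestronglyMeasurable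
      · refine (ae_restrict_iff' ((hg _ (hD k)).inter (hg _ (hD k)))).2
          (Eventually.of_forall fun θ hθ => ?_)
        rw [Real.norm_of_nonneg (K_nonneg (norm_nonneg _))]
        refine K_anti h0 hd ?_
        have h3 := hSd k _ hθ.1 _ hθ.2
        rwa [← map_sub, LinearIsometryEquiv.norm_map] at h3
    · rw [Fintype.sum_sum_type, Fintype.sum_prod_type]
      have hz : 0 ≤ ∑ j : Fin N₁, ∫ x in C (Sum.inr j), ∫ z in C (Sum.inr j),
          K s ‖x - z‖ ∂sig ∂sig := Finset.sum_nonneg fun j _ =>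
        integral_nonneg fun x => integral_nonneg fun z => K_nonneg (norm_nonneg _)
      refine le_trans ?_ (le_add_of_nonneg_right hz)
      exact Finset.sum_le_sum fun k _ => U_low h2 (hP k) (hI k) (hIP k) (hρ k) ω
  · rintro (⟨k, e⟩ | j) i
    · exact hSg k i
    · exact (hu j).comp (hg (x i0))
  · rintro (⟨k, e⟩ | j) i
    · exact (hg (x i) (hD k)).inter (hSg k i (measurableSet_cell ω e))
    · by_cases h : i = i0
      · simp only [Ev, Sum.elim_inr, h, if_true]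
        exact ((hu j).comp (hg (x i0))) (hCm (Sum.inr j))
      · simp only [Ev, Sum.elim_inr, h, if_false]
        exact MeasurableSet.empty
  · rintro (⟨k, e⟩ | j) i θ hθ
    · have h1 := hSm k hθ.1
      exact ⟨mem_sphere_zero_iff_norm.1 (hPs k h1), h1, hθ.2⟩
    · by_cases h : i = i0
      · simp only [Ev, Sum.elim_inr, h, if_true] at hθ
        refine ⟨?_, hθ⟩
        exact hun j _ (by rw [LinearIsometryEquiv.norm_map, hx.2])
      · simp only [Ev, Sum.elim_inr, h, if_false] at hθ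
        exact absurd hθ (notMem_empty _)
  · obtain ⟨δ, hδ, hδx⟩ := exists_sep hx
    refine ⟨(1 - η) / A * δ, mul_pos hb hδ, ?_⟩
    rintro (⟨k, e⟩ | j) i i' hi θ ⟨hθ, hθ'⟩
    · have h3 := hSd k _ hθ.1 _ hθ'.1
      rw [← map_sub, LinearIsometryEquiv.norm_map] at h3
      exact (mul_le_mul_of_nonneg_left (hδx i i' hi) hb.le).trans h3
    · exfalso
      by_cases h : i = i0
      · have h' : i' ≠ i0 := fun h' => hi (h.trans h'.symm)
        simp only [Ev, Sum.elim_inr, h', if_false] at hθ'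
        exact hθ'
      · simp only [Ev, Sum.elim_inr, h, if_false] at hθ
        exact hθ
  · rintro (⟨k, e⟩ | j) B hB
    · have h1 : ∀ i, γ.real (Ev (Sum.inl (k, e)) i ∩ y (Sum.inl (k, e)) i ⁻¹' B) =
          A ^ 2 * sig.real (B ∩ C (Sum.inl (k, e))) := by
        intro i
        have h2 : Ev (Sum.inl (k, e)) i ∩ y (Sum.inl (k, e)) i ⁻¹' B =
            {θ | g θ (x i) ∈ D k ∩ S k ⁻¹' (B ∩ cell ω e)} := by
          ext θ
          simp only [Ev, y, Sum.elim_inl, mem_inter_iff, mem_preimage, Set.mem_ofPred_eq]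
          tauto
        rw [h2, hga _ _ (hx.2 i) ((hD k).inter (hS k (hB.inter (measurableSet_cell ω e)))),
          hSa k _ (hB.inter (measurableSet_cell ω e))]
        congr 2
        simp only [C, Sum.elim_inl]
        ext z
        simp only [mem_inter_iff]
        tauto
      rw [Finset.sum_congr rfl fun i _ => h1 i, Finset.sum_const, Finset.card_univ,
        Fintype.card_fin, nsmul_eq_mul, ← mul_assoc, hAN]
    · rw [Finset.sum_eq_single i0]
      · have h2 : Ev (Sum.inr j) i0 ∩ y (Sum.inr j) i0 ⁻¹' B =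
            {θ | g θ (x i0) ∈ u j ⁻¹' (C (Sum.inr j) ∩ B)} := by
          ext θ
          simp only [Ev, y, C, Sum.elim_inr, if_true, mem_inter_iff, mem_preimage,
            Set.mem_ofPred_eq]
        rw [h2, hga _ _ (hx.2 i0) (hu j ((hCm _).inter hB)), hua j _ ((hCm _).inter hB)]
        congr 2
        simp only [C, Sum.elim_inr]
        ext z
        simp only [mem_inter_iff]
        tauto
      · intro i _ hi
        simp only [Ev, Sum.elim_inr, hi, if_false, empty_inter, measureReal_empty]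
      · intro h; exact absurd (Finset.mem_univ _) h
  · have h1 : ∀ j, sig.real (Q j) = (N₁ : ℝ)⁻¹ := by
      intro j
      have h2 := hua j univ MeasurableSet.univ
      rw [preimage_univ, univ_inter, probReal_univ] at h2
      have h3 : (N₁ : ℝ) ≠ 0 := by
        have : N₁ ≠ 0 := by omega
        exact_mod_cast this
      field_simp
      linarith
    have h2 : sig.real (⋃ j, Q j) = 1 := by
      rw [measureReal_iUnion_fintype (fun j j' h => hQd j j' h) hQ, Finset.sum_congr rfl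
        fun j _ => h1 j, Finset.sum_const, Finset.card_univ, Fintype.card_fin, nsmul_eq_mul]
      refine mul_inv_cancel₀ ?_
      have : N₁ ≠ 0 := by omega
      exact_mod_cast this
    rw [← measureReal_iUnion_fintype (fun j j' h => hCd j j' h) hCm]
    have h3 : sphere (0 : E3) 1 ∩ ⋃ j, Q j ⊆ ⋃ l, C l := by
      rintro z ⟨hz, hzQ⟩
      by_cases h : z ∈ ⋃ k, P k
      · obtain ⟨k, hk⟩ := mem_iUnion.1 h
        exact mem_iUnion.2 ⟨Sum.inl (k, lab ω z), hk, mem_cell.2 rfl⟩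
      · obtain ⟨j, hj⟩ := mem_iUnion.1 hzQ
        exact mem_iUnion.2 ⟨Sum.inr j, ⟨hz, h⟩, hj⟩
    refine le_antisymm measureReal_le_one ?_
    have h4 : sig.real (sphere (0 : E3) 1 ∩ ⋃ j, Q j) = 1 := by
      rw [sig_sphere, h2]
    rw [← h4]
    exact measureReal_mono h3

end Pool.Agent.Helper42.RZ.S11

namespace Pool.Agent.Helper42.RZ

open S11

theorem upper_M {s : ℝ} (h0 : 0 < s) (h2 : s < 2) {η κ : ℝ} (hη : 0 < η) (hη1 : η < 1)
    (hκ : 0 < κ) : ∃ ε₀ : ℝ, 0 < ε₀ ∧ ∀ (N₀ N₁ : ℕ), 1 ≤ N₀ → N₀ ≤ N₁ → ∀ ρ : ℝ, 0 < ρ →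
    ρ * Real.sqrt (N₁ / N₀) ≤ ε₀ → ∀ x : Fin N₀ → E3, Conf x → ∀ (M : ℕ) (β : ℝ),
    (∀ N' : ℕ, β ≤ minE s N' - 2 * N₁ * Cc s * N' + Cc s * (N₁ : ℝ) ^ 2) →
    β ≤ (N₁ : ℝ) / N₀ * PS x (fun r => K s ((1 - η) * Real.sqrt (N₀ / N₁) * r) *
        (1 - (1 - η) * Real.sqrt (N₀ / N₁) * r / 4) ^ M) -
      (N₁ : ℝ) ^ 2 * ((1 - κ) * ∫ r in (0 : ℝ)..ρ, K s r * (1 - r / 4) ^ M * (r / 2)) := by
  classical
  obtain ⟨ε₀, hε₀, hpatch⟩ := exists_patches hη hη1 hκ
  refine ⟨min ε₀ 2, lt_min hε₀ two_pos, ?_⟩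
  intro N₀ N₁ hN₀ hN ρ hρ hρA x hx M β hβ
  have hN₁ : 1 ≤ N₁ := hN₀.trans hN
  have hN₀' : (0 : ℝ) < N₀ := by exact_mod_cast hN₀
  have hN₁' : (0 : ℝ) < N₁ := by exact_mod_cast hN₁
  have hNR : (N₀ : ℝ) ≤ N₁ := by exact_mod_cast hN
  set A : ℝ := Real.sqrt (N₁ / N₀) with hAdef
  have hA : 1 ≤ A := by
    rw [hAdef, Real.one_le_sqrt, le_div_iff₀ hN₀', one_mul]
    exact hNR
  have hA0 : 0 < A := by linarith
  have hA2 : A ^ 2 = N₁ / N₀ := Real.sq_sqrt (by positivity)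
  have hAN : (N₀ : ℝ) * A ^ 2 = N₁ := by rw [hA2]; field_simp
  have hρ2 : ρ ≤ 2 := by
    have h3 := hρA.trans (min_le_right _ _)
    nlinarith
  have hbA : (1 - η) / A = (1 - η) * Real.sqrt (N₀ / N₁) := by
    rw [hAdef, div_eq_mul_inv, ← Real.sqrt_inv, inv_div]
  obtain ⟨n, P, D, I, S, hP, hD, hI, hS, hPd, hPs, -, hSm, hSd, hSa, hIP, hρI, hIκ⟩ :=
    hpatch A hA ρ hρ (hρA.trans (min_le_left _ _))
  obtain ⟨Q, u, hQ, hu, hQd, hun, hua⟩ := exists_sectors N₁ hN₁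
  obtain ⟨Γ, _, γ, _, g, hg, hgs⟩ := exists_rot
  have key := fun ω : Fin M → E3 × ℝ => pointwise h0 h2 (η := η) hη1 hA hN₀ hN₁ hAN hP hD hI hS
    hPd hPs hSm hSd hSa hIP hρI hQ hu hQd hun hua γ hg hgs x hx ω β hβ
  have hga : ∀ (x : E3) (B : Set E3), ‖x‖ = 1 → MeasurableSet B →
      γ.real {θ | g θ x ∈ B} = sig.real B := by
    intro x B h1 hB
    rw [Measure.real, Measure.real, ← hgs x h1, Measure.map_apply (hg x) hB]
    rfl
  have hb : 0 < (1 - η) / A := div_pos (by linarith) hA0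
  -- the averages
  have hW : ∀ k, ∀ p ∈ (Finset.univ : Finset (Fin N₀)).offDiag, _ := fun k p hp =>
    W_avg h0 γ (fun θ => S k (g θ (x p.1))) (fun θ => S k (g θ (x p.2)))
      ((hS k).comp (hg (x p.1))) ((hS k).comp (hg (x p.2)))
      ({θ | g θ (x p.1) ∈ D k} ∩ {θ | g θ (x p.2) ∈ D k})
      ((hg _ (hD k)).inter (hg _ (hD k)))
      (fun θ hθ => ⟨mem_sphere_zero_iff_norm.1 (hPs k (hSm k hθ.1)),
        mem_sphere_zero_iff_norm.1 (hPs k (hSm k hθ.2))⟩)
      (d := (1 - η) / A * ‖x p.1 - x p.2‖)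
      (mul_pos hb (by
        rw [norm_pos_iff, sub_ne_zero]
        exact fun h1 => (Finset.mem_offDiag.1 hp).2.2 (hx.1 h1)))
      (fun θ hθ => by
        have h3 := hSd k _ hθ.1 _ hθ.2
        rwa [← map_sub, LinearIsometryEquiv.norm_map] at h3) M
  have hU := fun k => U_avg h2 (I k) (hI k) hρ hρ2 M
  have h1 : β = ∫ _ω : Fin M → E3 × ℝ, β ∂(Pl M) := by
    rw [integral_const, probReal_univ, one_smul]
  have hiW : ∀ k, Integrable (fun ω : Fin M → E3 × ℝ =>
      ∑ p ∈ (Finset.univ : Finset (Fin N₀)).offDiag,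
        ∫ θ, ({θ | g θ (x p.1) ∈ D k} ∩ {θ | g θ (x p.2) ∈ D k} ∩
          {θ | Same ω (S k (g θ (x p.1))) (S k (g θ (x p.2)))}).indicator
          (fun θ => K s ‖S k (g θ (x p.1)) - S k (g θ (x p.2))‖) θ ∂γ) (Pl M) := fun k =>
    integrable_finsetSum _ fun p hp => (hW k p hp).1
  have h3 : β ≤ ∫ ω : Fin M → E3 × ℝ,
      (∑ k, ∑ p ∈ (Finset.univ : Finset (Fin N₀)).offDiag,
        ∫ θ, ({θ | g θ (x p.1) ∈ D k} ∩ {θ | g θ (x p.2) ∈ D k} ∩
          {θ | Same ω (S k (g θ (x p.1))) (S k (g θ (x p.2)))}).indicator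
          (fun θ => K s ‖S k (g θ (x p.1)) - S k (g θ (x p.2))‖) θ ∂γ -
      (N₁ : ℝ) ^ 2 * ∑ k, ∫ q, {q : E3 × E3 | q.1 ∈ I k ∧ ‖q.1 - q.2‖ < ρ ∧
        Same ω q.1 q.2}.indicator (fun q => K s ‖q.1 - q.2‖) q ∂(sig.prod sig)) ∂(Pl M) := by
    conv_lhs => rw [h1]
    refine integral_mono (integrable_const _) ?_ key
    exact (integrable_finsetSum _ fun k _ => hiW k).sub
      ((integrable_finsetSum _ fun k _ => (hU k).1).const_mul _)
  rw [integral_sub (integrable_finsetSum _ fun k _ => hiW k)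
      ((integrable_finsetSum _ fun k _ => (hU k).1).const_mul _), integral_const_mul,
    integral_finsetSum _ (fun k _ => hiW k), integral_finsetSum _ (fun k _ => (hU k).1)] at h3
  refine h3.trans (sub_le_sub ?_ (mul_le_mul_of_nonneg_left ?_ (by positivity)))
  · have hk : ∀ k, ∫ ω : Fin M → E3 × ℝ, ∑ p ∈ (Finset.univ : Finset (Fin N₀)).offDiag,
        ∫ θ, ({θ | g θ (x p.1) ∈ D k} ∩ {θ | g θ (x p.2) ∈ D k} ∩
          {θ | Same ω (S k (g θ (x p.1))) (S k (g θ (x p.2)))}).indicator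
          (fun θ => K s ‖S k (g θ (x p.1)) - S k (g θ (x p.2))‖) θ ∂γ ∂(Pl M) ≤
        A ^ 2 * sig.real (P k) * PS x (fun r => K s ((1 - η) / A * r) *
          (1 - (1 - η) / A * r / 4) ^ M) := by
      intro k
      rw [integral_finsetSum _ (fun p hp => (hW k p hp).1), PS, Finset.mul_sum]
      refine Finset.sum_le_sum fun p hp => (hW k p hp).2.trans ?_
      refine mul_le_mul_of_nonneg_right ?_ ?_
      · have h4 := hSa k univ MeasurableSet.univ
        rw [preimage_univ, inter_univ, univ_inter] at h4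
        rw [← h4, ← hga _ _ (hx.2 p.1) (hD k)]
        exact measureReal_mono inter_subset_left
      · refine mul_nonneg (K_nonneg (by positivity)) (pow_nonneg ?_ M)
        have h5 : ‖x p.1 - x p.2‖ ≤ 2 := by
          calc ‖x p.1 - x p.2‖ ≤ ‖x p.1‖ + ‖x p.2‖ := norm_sub_le _ _
            _ = 2 := by rw [hx.2, hx.2]; norm_num
        have h6 : (1 - η) / A ≤ 1 := by
          rw [div_le_one hA0]; linarith
        have h7 := mul_le_mul h6 h5 (norm_nonneg _) zero_le_one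
        linarith
    refine (Finset.sum_le_sum fun k _ => hk k).trans ?_
    rw [← Finset.sum_mul, ← Finset.mul_sum]
    have h8 : ∑ k, sig.real (P k) ≤ 1 := by
      rw [← measureReal_iUnion_fintype (fun j j' h => hPd j j' h) hP]
      exact measureReal_le_one
    rw [← hA2, ← hbA]
    have h9 : 0 ≤ PS x (fun r => K s ((1 - η) / A * r) * (1 - (1 - η) / A * r / 4) ^ M) := by
      refine Finset.sum_nonneg fun p _ => ?_
      refine mul_nonneg (K_nonneg (by positivity)) (pow_nonneg ?_ M)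
      have h5 : ‖x p.1 - x p.2‖ ≤ 2 := by
        calc ‖x p.1 - x p.2‖ ≤ ‖x p.1‖ + ‖x p.2‖ := norm_sub_le _ _
          _ = 2 := by rw [hx.2, hx.2]; norm_num
      have h6 : (1 - η) / A ≤ 1 := by
        rw [div_le_one hA0]; linarith
      have h7 := mul_le_mul h6 h5 (norm_nonneg _) zero_le_one
      linarith
    refine mul_le_mul_of_nonneg_right ?_ h9
    have h10 : (0 : ℝ) ≤ A ^ 2 := by positivity
    nlinarith
  · rw [Finset.sum_congr rfl fun k _ => (hU k).2, ← Finset.sum_mul]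
    refine mul_le_mul_of_nonneg_right hIκ ?_
    refine intervalIntegral.integral_nonneg hρ.le fun r hr => ?_
    refine mul_nonneg (mul_nonneg (K_nonneg hr.1) (pow_nonneg ?_ M)) ?_
    · linarith [hr.2]
    · linarith [hr.1]

end Pool.Agent.Helper42.RZ
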