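import Pool.Agent.Helper42.RZ.St.S6b
import Pool.Agent.Helper42.RZ.St.S7
import Pool.Agent.Helper42.RZ.St.S8
import Pool.Agent.Helper42.RZ.St.S12
import Pool.Agent.Helper42.RZ.St.S13
import Pool.Agent.Helper42.RZ.St.S14

/-! # RZ-S15: the second order term is almost decreasing; the limit -/

set_option autoImplicit false

open MeasureTheory Set Metric Filter Topology
open scoped ENNReal

namespace Pool.Agent.Helper42.RZ.S15

open Pool.Agent.Helper35.RZ (HJ_nonneg HJ_le_one measurable_HJ)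

theorem HJ_le_exp {J u : ℝ} (hJ : 0 < J) (hu : 0 ≤ u) :
    HJ J u ≤ Real.exp (-(Real.exp (-2 * J)) * u) := by
  unfold HJ
  have hle : Real.exp (-2 * J) ≤ Real.exp (-J) := Real.exp_le_exp.2 (by linarith only [hJ])
  have h0 : ∀ x ∈ uIcc (Real.exp (-2 * J)) (Real.exp (-J)), x ≠ 0 := by
    intro x hx
    rw [uIcc_of_le hle] at hx
    exact (lt_of_lt_of_le (Real.exp_pos _) hx.1).ne'
  have h1 : ∫ w in (Real.exp (-2 * J))..(Real.exp (-J)), Real.exp (-w * u) / w ≤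
      ∫ w in (Real.exp (-2 * J))..(Real.exp (-J)),
        Real.exp (-(Real.exp (-2 * J)) * u) * (1 / w) := by
    refine intervalIntegral.integral_mono_on hle ?_ ?_ ?_
    · refine ContinuousOn.intervalIntegrable ?_
      exact ContinuousOn.div (by fun_prop) continuousOn_id h0
    · refine ContinuousOn.intervalIntegrable ?_
      exact ContinuousOn.mul (by fun_prop) (ContinuousOn.div (by fun_prop) continuousOn_id h0)
    · intro w hw
      have : 0 < w := lt_of_lt_of_le (Real.exp_pos _) hw.1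
      rw [mul_one_div]
      have h3 : Real.exp (-w * u) ≤ Real.exp (-(Real.exp (-2 * J)) * u) := by
        rw [Real.exp_le_exp]
        nlinarith only [hu, hw, hw.1]
      gcongr
  have h2 : ∫ w in (Real.exp (-2 * J))..(Real.exp (-J)), 1 / w = J := by
    rw [integral_one_div_of_pos (Real.exp_pos _) (Real.exp_pos _), ← Real.exp_sub, Real.log_exp]
    ring
  rw [intervalIntegral.integral_const_mul, h2] at h1
  calc J⁻¹ * _ ≤ J⁻¹ * (Real.exp (-(Real.exp (-2 * J)) * u) * J) := by gcongr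
    _ = Real.exp (-(Real.exp (-2 * J)) * u) := by field_simp

/-- the truncated self-energy -/
noncomputable def Z (s J R : ℝ) : ℝ := ∫ u in (0 : ℝ)..R, K s u * HJ J u * (u / 2)

/-- its limit -/
noncomputable def Zi (s J : ℝ) : ℝ := ∫ u in Ioi (0 : ℝ), K s u * HJ J u * (u / 2)

theorem measurable_int (s J : ℝ) : Measurable (fun u : ℝ => K s u * HJ J u * (u / 2)) := by
  have hK : Measurable (K s) := by
    unfold K
    exact measurable_id.pow_const _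
  exact (hK.mul (measurable_HJ J)).mul (by fun_prop)

theorem int_nonneg {s J u : ℝ} (hJ : 0 < J) (hu : 0 ≤ u) : 0 ≤ K s u * HJ J u * (u / 2) :=
  mul_nonneg (mul_nonneg (Real.rpow_nonneg hu _) (HJ_nonneg hJ)) (by linarith)

theorem integrableOn_Z {s : ℝ} (h2 : s < 2) {J : ℝ} (hJ : 0 < J) :
    IntegrableOn (fun u : ℝ => K s u * HJ J u * (u / 2)) (Ioi 0) := by
  have h1 : IntegrableOn (fun u : ℝ => u ^ (1 - s) *
      Real.exp (-(Real.exp (-2 * J)) * u ^ (1 : ℝ))) (Ioi 0) :=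
    integrableOn_rpow_mul_exp_neg_mul_rpow (by linarith) one_pos (Real.exp_pos _)
  refine Integrable.mono' h1 (measurable_int s J).aestronglyMeasurable ?_
  refine (ae_restrict_iff' measurableSet_Ioi).2 (Eventually.of_forall fun u hu => ?_)
  have hu0 : (0 : ℝ) < u := hu
  rw [Real.norm_of_nonneg (int_nonneg hJ hu0.le), Real.rpow_one]
  have h3 : u ^ (1 - s) = K s u * u := by
    rw [K, sub_eq_neg_add, Real.rpow_add hu0, Real.rpow_one]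
  have h4 : 0 ≤ K s u := Real.rpow_nonneg hu0.le _
  have h5 := HJ_le_exp hJ hu0.le
  have h6 := HJ_nonneg (u := u) hJ
  rw [h3]
  have h7 : K s u * HJ J u * (u / 2) ≤ K s u * u * HJ J u := by
    have := mul_nonneg (mul_nonneg h4 h6) hu0.le
    linarith only [this]
  refine h7.trans (mul_le_mul_of_nonneg_left h5 (by positivity))

theorem Z_le_Zi {s : ℝ} (h2 : s < 2) {J : ℝ} (hJ : 0 < J) {R : ℝ} (hR : 0 ≤ R) :
    Z s J R ≤ Zi s J := by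
  rw [Z, Zi, intervalIntegral.integral_of_le hR]
  refine setIntegral_mono_set (integrableOn_Z h2 hJ) ?_ ?_
  · refine (ae_restrict_iff' measurableSet_Ioi).2 (Eventually.of_forall fun u hu => ?_)
    exact int_nonneg hJ (le_of_lt hu)
  · exact (Ioc_subset_Ioi_self).eventuallyLE

theorem Z_mono {s : ℝ} (h2 : s < 2) {J : ℝ} (hJ : 0 < J) {R R' : ℝ} (hR : 0 ≤ R) (h : R ≤ R') :
    Z s J R ≤ Z s J R' := by
  rw [Z, Z, intervalIntegral.integral_of_le hR, intervalIntegral.integral_of_le (hR.trans h)]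
  refine setIntegral_mono_set ((integrableOn_Z h2 hJ).mono_set Ioc_subset_Ioi_self) ?_ ?_
  · refine (ae_restrict_iff' measurableSet_Ioc).2 (Eventually.of_forall fun u hu => ?_)
    exact int_nonneg hJ (le_of_lt hu.1)
  · exact (Ioc_subset_Ioc_right h).eventuallyLE

theorem Z_tendsto {s : ℝ} (h2 : s < 2) {J : ℝ} (hJ : 0 < J) :
    Tendsto (Z s J) atTop (𝓝 (Zi s J)) :=
  intervalIntegral_tendsto_integral_Ioi 0 (integrableOn_Z h2 hJ) tendsto_id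

theorem Zi_nonneg {s J : ℝ} (hJ : 0 < J) : 0 ≤ Zi s J :=
  setIntegral_nonneg measurableSet_Ioi fun _ hu => int_nonneg hJ (le_of_lt hu)

/-- scaling -/
theorem scale {s : ℝ} {c : ℝ} (hc : 0 < c) (J R : ℝ) (hR : 0 ≤ R) :
    ∫ r in (0 : ℝ)..R, K s r * HJ J (c * r) * (r / 2) = c ^ (s - 2) * Z s J (c * R) := by
  have h1 := intervalIntegral.integral_comp_mul_left (a := 0) (b := R)
    (fun u => K s u * HJ J u * (u / 2)) hc.ne'
  rw [mul_zero, smul_eq_mul] at h1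
  rw [Z, ← mul_right_inj' (inv_pos.2 hc).ne', mul_left_comm, ← h1,
    ← intervalIntegral.integral_const_mul, ← intervalIntegral.integral_const_mul]
  refine intervalIntegral.integral_congr_ae' ?_ ?_
  · refine Eventually.of_forall fun r hr => ?_
    have hr0 : 0 < r := hr.1
    have h2 : K s (c * r) = c ^ (-s) * K s r := by
      rw [K, K, Real.mul_rpow hc.le hr0.le]
    have h3 : c ^ (s - 2) * c ^ (-s) * c = c⁻¹ := by
      rw [← Real.rpow_add hc, ← Real.rpow_add_one hc.ne', ← Real.rpow_neg_one]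
      congr 1; ring
    rw [h2, ← h3]
    ring
  · refine Eventually.of_forall fun r hr => ?_
    exact absurd (lt_of_lt_of_le hr.1 hr.2) (not_lt.2 hR)

theorem pow1 {N : ℝ} (hN : 0 < N) (s : ℝ) :
    N ^ 2 * (Real.sqrt N) ^ (s - 2) = N ^ (1 + s / 2) := by
  rw [Real.sqrt_eq_rpow, ← Real.rpow_mul hN.le, ← Real.rpow_natCast N 2, ← Real.rpow_add hN]
  congr 1
  push_cast
  ring

theorem pow2 {N₀ N₁ η : ℝ} (hN₀ : 0 < N₀) (hN₁ : 0 < N₁) (hη : η < 1) (s : ℝ) :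
    N₁ / N₀ * ((1 - η) * Real.sqrt (N₀ / N₁)) ^ (-s) =
      (1 - η) ^ (-s) * (N₁ ^ (1 + s / 2) / N₀ ^ (1 + s / 2)) := by
  have h1 : 0 < N₁ / N₀ := div_pos hN₁ hN₀
  have h2 : Real.sqrt (N₀ / N₁) ^ (-s) = (N₁ / N₀) ^ (s / 2) := by
    rw [Real.sqrt_eq_rpow, ← Real.rpow_mul (by positivity), ← inv_div N₁ N₀,
      Real.inv_rpow h1.le, ← Real.rpow_neg h1.le]
    congr 1; ring
  rw [Real.mul_rpow (by linarith) (Real.sqrt_nonneg _), h2, ← Real.div_rpow hN₁.le hN₀.le,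
    Real.rpow_add h1, Real.rpow_one]
  ring

theorem PS_scale {N : ℕ} (x : Fin N → E3) {s b : ℝ} (hb : 0 < b) (h : ℝ → ℝ) :
    PS x (fun r => K s (b * r) * h r) = b ^ (-s) * PS x (fun r => K s r * h r) := by
  rw [PS, PS, Finset.mul_sum]
  refine Finset.sum_congr rfl fun p _ => ?_
  rw [K, K, Real.mul_rpow hb.le (norm_nonneg _)]
  ring

theorem bg_scale {s : ℝ} (h2 : s < 2) {J : ℝ} (hJ : 0 < J) {N : ℝ} (hN : 0 < N) :
    N ^ 2 * bg (fun r => K s r * HJ J (Real.sqrt N * r)) ≤ N ^ (1 + s / 2) * Zi s J := by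
  have h1 : 0 < Real.sqrt N := Real.sqrt_pos.2 hN
  rw [bg, scale h1 J 2 (by norm_num), ← mul_assoc, pow1 hN]
  exact mul_le_mul_of_nonneg_left (Z_le_Zi h2 hJ (by positivity)) (by positivity)

theorem core {s : ℝ} (h2 : s < 2) {c c' : ℝ} (hc : 0 < c)
    (hlb : ∀ J : ℝ, 1 ≤ J → ∀ (N : ℕ) (x : Fin N → E3), 1 ≤ N → Conf x →
      PS x (fun r => K s r * HJ J (Real.sqrt N * r)) -
        (N : ℝ) ^ 2 * bg (fun r => K s r * HJ J (Real.sqrt N * r)) ≤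
        (1 + c / J) * (PS x (K s) - Cc s * (N : ℝ) ^ 2) + c' / J * (N : ℝ) ^ (1 + s / 2))
    {η κ ε₀ : ℝ} (hη1 : η < 1)
    (hup : ∀ (N₀ N₁ : ℕ), 1 ≤ N₀ → N₀ ≤ N₁ →
      ∀ ρ : ℝ, 0 < ρ → ρ * Real.sqrt (N₁ / N₀) ≤ ε₀ → ∀ x : Fin N₀ → E3, Conf x →
      ∀ (J : ℝ) (β : ℝ), 0 < J →
      (∀ N' : ℕ, β ≤ minE s N' - 2 * N₁ * Cc s * N' + Cc s * (N₁ : ℝ) ^ 2) →
      β ≤ (N₁ : ℝ) / N₀ * PS x (fun r => K s ((1 - η) * Real.sqrt (N₀ / N₁) * r) *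
          HJ J (Real.sqrt N₀ * r)) -
        (N₁ : ℝ) ^ 2 * ((1 - κ) *
          ∫ r in (0 : ℝ)..ρ, K s r * HJ J (Real.sqrt N₁ * r / (1 - η)) * (r / 2)))
    {J : ℝ} (hJ : 1 ≤ J) {Λ : ℝ} (hΛ : 0 < Λ) {N₀ N₁ : ℕ} (hN₀ : 1 ≤ N₀) (hN : N₀ ≤ N₁)
    (hΛN : Λ ≤ ε₀ * Real.sqrt N₀) {β : ℝ}
    (hβ : ∀ N' : ℕ, β ≤ minE s N' - 2 * N₁ * Cc s * N' + Cc s * (N₁ : ℝ) ^ 2) :
    β ≤ (N₁ : ℝ) ^ (1 + s / 2) * ((1 - η) ^ (-s) * (Zi s J + (1 + c / J) *
        ((minE s N₀ - Cc s * (N₀ : ℝ) ^ 2) / (N₀ : ℝ) ^ (1 + s / 2) +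
          1 / (N₀ : ℝ) ^ (1 + s / 2)) + c' / J) -
        (1 - κ) * ((1 - η) ^ (2 - s) * Z s J (Λ / (1 - η)))) := by
  have hJ0 : 0 < J := by linarith only [hJ]
  have hN₀' : (0 : ℝ) < N₀ := by exact_mod_cast hN₀
  have hN₁' : (0 : ℝ) < N₁ := by exact_mod_cast (hN₀.trans hN)
  have hs0 : 0 < Real.sqrt N₀ := Real.sqrt_pos.2 hN₀'
  have hs1 : 0 < Real.sqrt N₁ := Real.sqrt_pos.2 hN₁'
  have hη0 : 0 < 1 - η := by linarith only [hη1]
  have hP0 : 0 < (N₀ : ℝ) ^ (1 + s / 2) := by positivity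
  have hP1 : 0 < (N₁ : ℝ) ^ (1 + s / 2) := by positivity
  obtain ⟨x, hx, hxE⟩ := exists_near (s := s) N₀ one_pos
  have hρ : Λ / Real.sqrt N₁ * Real.sqrt (N₁ / N₀) ≤ ε₀ := by
    rw [Real.sqrt_div' _ hN₀'.le, div_mul_div_comm, mul_comm (Real.sqrt N₁), mul_div_mul_right _ _ hs1.ne',
      div_le_iff₀ hs0]
    exact hΛN
  have key := hup N₀ N₁ hN₀ hN (Λ / Real.sqrt N₁) (by positivity) hρ x hx J β hJ0 hβ
  have hb : 0 < (1 - η) * Real.sqrt (N₀ / N₁) := by positivity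
  rw [PS_scale x hb (fun r => HJ J (Real.sqrt N₀ * r)), ← mul_assoc, pow2 hN₀' hN₁' hη1] at key
  have hsc : ∫ r in (0 : ℝ)..(Λ / Real.sqrt N₁),
      K s r * HJ J (Real.sqrt N₁ * r / (1 - η)) * (r / 2) =
      (Real.sqrt N₁) ^ (s - 2) * ((1 - η) ^ (2 - s) * Z s J (Λ / (1 - η))) := by
    have h3 := scale (s := s) (c := Real.sqrt N₁ / (1 - η)) (by positivity) J
      (Λ / Real.sqrt N₁) (by positivity)
    have h4 : ∀ r : ℝ, Real.sqrt N₁ / (1 - η) * r = Real.sqrt N₁ * r / (1 - η) := fun r => by ring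
    simp only [h4] at h3
    rw [h3, Real.div_rpow hs1.le hη0.le, div_eq_mul_inv, ← Real.rpow_neg hη0.le, mul_assoc]
    congr 2
    · congr 1; ring
    · congr 1
      field_simp
  rw [hsc] at key
  have h5 := hlb J hJ N₀ x hN₀ hx
  have h6 := bg_scale h2 hJ0 hN₀' (s := s)
  have hcJ : 0 < 1 + c / J := by positivity
  have h7 : PS x (fun r => K s r * HJ J (Real.sqrt N₀ * r)) ≤ (N₀ : ℝ) ^ (1 + s / 2) *
      (Zi s J + (1 + c / J) * ((minE s N₀ - Cc s * (N₀ : ℝ) ^ 2) / (N₀ : ℝ) ^ (1 + s / 2) +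
          1 / (N₀ : ℝ) ^ (1 + s / 2)) + c' / J) := by
    have h8 : (N₀ : ℝ) ^ (1 + s / 2) *
      (Zi s J + (1 + c / J) * ((minE s N₀ - Cc s * (N₀ : ℝ) ^ 2) / (N₀ : ℝ) ^ (1 + s / 2) +
          1 / (N₀ : ℝ) ^ (1 + s / 2)) + c' / J) = (N₀ : ℝ) ^ (1 + s / 2) * Zi s J +
      (1 + c / J) * (minE s N₀ - Cc s * (N₀ : ℝ) ^ 2 + 1) + c' / J * (N₀ : ℝ) ^ (1 + s / 2) := by
      field_simp
    rw [h8]
    have h9 : (1 + c / J) * (PS x (K s) - Cc s * (N₀ : ℝ) ^ 2) ≤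
        (1 + c / J) * (minE s N₀ - Cc s * (N₀ : ℝ) ^ 2 + 1) :=
      mul_le_mul_of_nonneg_left (by linarith only [hxE]) hcJ.le
    linarith only [h5, h6, h9]
  refine key.trans ?_
  have h10 : (1 - η) ^ (-s) * ((N₁ : ℝ) ^ (1 + s / 2) / (N₀ : ℝ) ^ (1 + s / 2)) *
      PS x (fun r => K s r * HJ J (Real.sqrt N₀ * r)) ≤
      (1 - η) ^ (-s) * ((N₁ : ℝ) ^ (1 + s / 2) / (N₀ : ℝ) ^ (1 + s / 2)) *
      ((N₀ : ℝ) ^ (1 + s / 2) *
      (Zi s J + (1 + c / J) * ((minE s N₀ - Cc s * (N₀ : ℝ) ^ 2) / (N₀ : ℝ) ^ (1 + s / 2) +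
          1 / (N₀ : ℝ) ^ (1 + s / 2)) + c' / J)) :=
    mul_le_mul_of_nonneg_left h7 (by positivity)
  refine (sub_le_sub_right h10 _).trans (le_of_eq ?_)
  rw [mul_left_comm ((N₁ : ℝ) ^ 2), ← mul_assoc ((N₁ : ℝ) ^ 2), pow1 hN₁']
  field_simp

/-! ## The normalised second order term -/

/-- the normalised second order term -/
noncomputable def f (s : ℝ) (N : ℕ) : ℝ :=
  (minE s N - Cc s * (N : ℝ) ^ 2) / (N : ℝ) ^ (1 + s / 2)

theorem f_bdd {s : ℝ} (h0 : 0 < s) (h2 : s < 2) : ∃ a : ℝ, 0 < a ∧ ∀ N : ℕ, 1 ≤ N → -a ≤ f s N := by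
  obtain ⟨c, hc, h⟩ := apriori h0 h2
  refine ⟨c, hc, fun N hN => ?_⟩
  have hN' : (0 : ℝ) < N := by exact_mod_cast hN
  have hP : 0 < (N : ℝ) ^ (1 + s / 2) := by positivity
  rw [f, le_div_iff₀ hP]
  refine le_of_forall_pos_le_add fun ε hε => ?_
  obtain ⟨x, hx, hxE⟩ := exists_near (s := s) N hε
  have := h N x hx
  linarith

theorem f_nonpos {s : ℝ} (h0 : 0 < s) (h2 : s < 2) {N : ℕ} (hN : 1 ≤ N) : f s N ≤ 0 := by
  have hN' : (0 : ℝ) < N := by exact_mod_cast hN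
  have hP : 0 < (N : ℝ) ^ (1 + s / 2) := by positivity
  rw [f, div_nonpos_iff]
  right
  refine ⟨?_, hP.le⟩
  have h1 := minE_le h0 h2 N
  have hC : 0 < Cc s := by
    rw [Cc]
    have : 0 < 2 - s := by linarith
    positivity
  linarith only [h1, hC, hN', mul_pos hC hN']

theorem exists_eta (s Z : ℝ) {ε : ℝ} (hε : 0 < ε) : ∃ η : ℝ, 0 < η ∧ η ≤ 1 / 2 ∧
    (1 - η) ^ (-s) * Z - (1 - η) * ((1 - η) ^ (2 - s) * Z) ≤ ε := by
  have h1 : Tendsto (fun η : ℝ => (1 - η) ^ (-s) * Z - (1 - η) * ((1 - η) ^ (2 - s) * Z))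
      (𝓝 0) (𝓝 ((1 - (0 : ℝ)) ^ (-s) * Z - (1 - 0) * ((1 - (0 : ℝ)) ^ (2 - s) * Z))) := by
    have h2 : ∀ p : ℝ, Tendsto (fun η : ℝ => (1 - η) ^ p) (𝓝 0) (𝓝 ((1 - (0 : ℝ)) ^ p)) := by
      intro p
      refine Tendsto.rpow_const ?_ (Or.inl (by norm_num))
      exact tendsto_const_nhds.sub tendsto_id
    refine ((h2 _).mul tendsto_const_nhds).sub (Tendsto.mul ?_ ((h2 _).mul tendsto_const_nhds))
    exact tendsto_const_nhds.sub tendsto_id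
  have h3 : (1 - (0 : ℝ)) ^ (-s) * Z - (1 - 0) * ((1 - (0 : ℝ)) ^ (2 - s) * Z) = 0 := by simp
  rw [h3] at h1
  have h4 : ∀ᶠ η : ℝ in 𝓝[>] 0, (1 - η) ^ (-s) * Z - (1 - η) * ((1 - η) ^ (2 - s) * Z) < ε :=
    nhdsWithin_le_nhds (h1.eventually (eventually_lt_nhds hε))
  have h5 : ∀ᶠ η : ℝ in 𝓝[>] 0, η < 1 / 2 :=
    nhdsWithin_le_nhds (eventually_lt_nhds (by norm_num))
  obtain ⟨η, ⟨h6, h7⟩, h8⟩ := ((h4.and h5).and self_mem_nhdsWithin).exists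
  exact ⟨η, h8, h7.le, h6.le⟩

theorem exists_delta {ε a : ℝ} (hε : 0 < ε) : ∃ δ : ℝ, 0 < δ ∧ δ ≤ 1 / 8 ∧
    (((1 + δ) / (1 - 2 * δ)) ^ 4 - 1) * a ≤ ε := by
  have h1 : Tendsto (fun δ : ℝ => (((1 + δ) / (1 - 2 * δ)) ^ 4 - 1) * a)
      (𝓝 0) (𝓝 ((((1 + 0) / (1 - 2 * (0 : ℝ))) ^ 4 - 1) * a)) := by
    refine Tendsto.mul (Tendsto.sub (Tendsto.pow (Tendsto.div ?_ ?_ (by norm_num)) 4)
      tendsto_const_nhds) tendsto_const_nhds
    · exact tendsto_const_nhds.add tendsto_id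
    · exact tendsto_const_nhds.sub (tendsto_const_nhds.mul tendsto_id)
  have h3 : (((1 + 0) / (1 - 2 * (0 : ℝ))) ^ 4 - 1) * a = 0 := by simp
  rw [h3] at h1
  have h4 : ∀ᶠ δ : ℝ in 𝓝[>] 0, (((1 + δ) / (1 - 2 * δ)) ^ 4 - 1) * a < ε :=
    nhdsWithin_le_nhds (h1.eventually (eventually_lt_nhds hε))
  have h5 : ∀ᶠ η : ℝ in 𝓝[>] 0, η < 1 / 8 :=
    nhdsWithin_le_nhds (eventually_lt_nhds (by norm_num))
  obtain ⟨η, ⟨h6, h7⟩, h8⟩ := ((h4.and h5).and self_mem_nhdsWithin).exists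
  exact ⟨η, h8, h7.le, h6.le⟩

end Pool.Agent.Helper42.RZ.S15

namespace Pool.Agent.Helper42.RZ

open S15

set_option maxHeartbeats 1000000 in
theorem almost_decreasing {s : ℝ} (h0 : 0 < s) (h2 : s < 2) {ε : ℝ} (hε : 0 < ε) :
    ∃ N₂ : ℕ, ∀ N₀ : ℕ, N₂ ≤ N₀ → ∃ N₃ : ℕ, ∀ N : ℕ, N₃ ≤ N →
      (minE s N - Cc s * (N : ℝ) ^ 2) / (N : ℝ) ^ (1 + s / 2) ≤
      (minE s N₀ - Cc s * (N₀ : ℝ) ^ 2) / (N₀ : ℝ) ^ (1 + s / 2) + ε := by
  obtain ⟨c, c', hc, hc', hlb⟩ := lb_loc h0 h2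
  obtain ⟨a, ha, hfa⟩ := f_bdd h0 h2
  obtain ⟨J, hJ1, hJ⟩ : ∃ J : ℝ, 1 ≤ J ∧ 4 * (c' / J) ≤ ε / 16 := by
    refine ⟨max 1 (64 * c' / ε), le_max_left _ _, ?_⟩
    have h3 : 0 < max 1 (64 * c' / ε) := lt_max_of_lt_left one_pos
    rw [← mul_div_assoc, div_le_iff₀ h3]
    have h4 := mul_le_mul_of_nonneg_left (le_max_right 1 (64 * c' / ε))
      (show (0 : ℝ) ≤ ε / 16 by positivity)
    have h5 : ε / 16 * (64 * c' / ε) = 4 * c' := by field_simp; ring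
    linarith
  have hJ0 : 0 < J := by linarith
  obtain ⟨η, hη0, hη2, hη⟩ := exists_eta s (Zi s J) (show 0 < ε / 16 by positivity)
  obtain ⟨ε₀, hε₀, hup⟩ := upper_J h0 h2 hη0 (show η < 1 by linarith) hη0 (show η < 1 by linarith)
  have hη1 : 0 < 1 - η := by linarith
  obtain ⟨Λ, hΛ0, hΛ⟩ : ∃ Λ : ℝ, 0 < Λ ∧ Zi s J - Z s J (Λ / (1 - η)) ≤ ε / 16 := by
    have h3 : ∀ᶠ R in atTop, Zi s J - ε / 16 < Z s J R :=
      (Z_tendsto h2 hJ0).eventually (lt_mem_nhds (by linarith))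
    obtain ⟨R₀, hR₀⟩ := eventually_atTop.1 h3
    refine ⟨max 1 R₀, lt_max_of_lt_left one_pos, ?_⟩
    have h4 : R₀ ≤ max 1 R₀ / (1 - η) := by
      rw [le_div_iff₀ hη1]
      have h5 : 0 < max 1 R₀ := lt_max_of_lt_left one_pos
      have h6 : R₀ ≤ max 1 R₀ := le_max_right _ _
      nlinarith only [h6, hη0, h5, hη2]
    linarith only [hR₀, h4, hR₀ _ h4]
  -- constants
  have hη4 : (1 - η) ^ (-s) ≤ 4 := by
    have h3 : (1 - η) ^ (-s) ≤ (1 / 2 : ℝ) ^ (-s) :=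
      Real.rpow_le_rpow_of_nonpos (by norm_num) (by linarith) (by linarith)
    have h4 : (1 / 2 : ℝ) ^ (-s) ≤ (1 / 2 : ℝ) ^ (-2 : ℝ) :=
      Real.rpow_le_rpow_of_exponent_ge (by norm_num) (by norm_num) (by linarith)
    have h5 : (1 / 2 : ℝ) ^ (-2 : ℝ) = 4 := by
      rw [Real.rpow_neg (by norm_num), Real.rpow_two]; norm_num
    linarith
  have hη5 : 1 ≤ (1 - η) ^ (-s) :=
    Real.one_le_rpow_of_pos_of_le_one_of_nonpos hη1 (by linarith) (by linarith)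
  have hη6 : (1 - η) ^ (2 - s) ≤ 1 :=
    Real.rpow_le_one hη1.le (by linarith) (by linarith)
  have hη7 : 0 ≤ (1 - η) ^ (2 - s) := by positivity
  have hcJ : 0 < c / J := by positivity
  -- N₂
  have hT1 : Tendsto (fun N : ℕ => ε₀ * Real.sqrt N) atTop atTop :=
    (Real.tendsto_sqrt_atTop.comp tendsto_natCast_atTop_atTop).const_mul_atTop hε₀
  have hT2 : Tendsto (fun N : ℕ => (N : ℝ) ^ (1 + s / 2)) atTop atTop :=
    (tendsto_rpow_atTop (by linarith)).comp tendsto_natCast_atTop_atTop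
  obtain ⟨N₂, hN₂⟩ := eventually_atTop.1 ((hT1.eventually_ge_atTop Λ).and
    ((hT2.eventually_ge_atTop (64 * (1 + c / J) / ε)).and (eventually_ge_atTop 1)))
  refine ⟨N₂, fun N₀ hN₀ => ?_⟩
  obtain ⟨hA1, hA2, hA3⟩ := hN₂ N₀ hN₀
  have hN₀' : (0 : ℝ) < N₀ := by exact_mod_cast hA3
  have hP0 : 0 < (N₀ : ℝ) ^ (1 + s / 2) := by positivity
  have hf0 := f_nonpos h0 h2 hA3
  -- the right hand side
  set G : ℝ := (1 - η) ^ (-s) * (Zi s J + (1 + c / J) *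
        ((minE s N₀ - Cc s * (N₀ : ℝ) ^ 2) / (N₀ : ℝ) ^ (1 + s / 2) +
          1 / (N₀ : ℝ) ^ (1 + s / 2)) + c' / J) -
        (1 - η) * ((1 - η) ^ (2 - s) * Z s J (Λ / (1 - η))) with hG
  have hGle : G ≤ f s N₀ + ε / 4 := by
    have e1 : G = ((1 - η) ^ (-s) * Zi s J - (1 - η) * ((1 - η) ^ (2 - s) * Zi s J)) +
        ((1 - η) * (1 - η) ^ (2 - s)) * (Zi s J - Z s J (Λ / (1 - η))) +
        (1 - η) ^ (-s) * (1 + c / J) * f s N₀ +
        (1 - η) ^ (-s) * ((1 + c / J) / (N₀ : ℝ) ^ (1 + s / 2)) + (1 - η) ^ (-s) * (c' / J) := by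
      rw [hG, f]; ring
    have e2 : (1 - η) * (1 - η) ^ (2 - s) ≤ 1 := by
      calc (1 - η) * (1 - η) ^ (2 - s) ≤ 1 * 1 := by
            refine mul_le_mul (by linarith only [hη0]) hη6 hη7 zero_le_one
        _ = 1 := one_mul 1
    have e3 : 0 ≤ Zi s J - Z s J (Λ / (1 - η)) := by
      linarith only [h2, hJ0, hΛ0, hη1, Z_le_Zi h2 hJ0 (show 0 ≤ Λ / (1 - η) by positivity)]
    have e4 : ((1 - η) * (1 - η) ^ (2 - s)) * (Zi s J - Z s J (Λ / (1 - η))) ≤ ε / 16 := by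
      refine (mul_le_mul_of_nonneg_right e2 e3).trans ?_
      rw [one_mul]; exact hΛ
    have e5 : (1 - η) ^ (-s) * (1 + c / J) * f s N₀ ≤ f s N₀ := by
      have : 1 ≤ (1 - η) ^ (-s) * (1 + c / J) := by nlinarith only [hη5, hη0, hcJ, hη2]
      nlinarith only [hη0, hη2, hf0, this]
    have e6 : (1 - η) ^ (-s) * ((1 + c / J) / (N₀ : ℝ) ^ (1 + s / 2)) ≤ ε / 16 := by
      have h5 : (1 + c / J) / (N₀ : ℝ) ^ (1 + s / 2) ≤ ε / 64 := by
        rw [div_le_iff₀ hP0]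
        have h6 := mul_le_mul_of_nonneg_left hA2 (show (0 : ℝ) ≤ ε / 64 by positivity)
        have h7 : ε / 64 * (64 * (1 + c / J) / ε) = 1 + c / J := by field_simp
        linarith only [h6, h7]
      have h8 : 0 ≤ (1 + c / J) / (N₀ : ℝ) ^ (1 + s / 2) := by positivity
      calc (1 - η) ^ (-s) * ((1 + c / J) / (N₀ : ℝ) ^ (1 + s / 2)) ≤ 4 * (ε / 64) :=
            mul_le_mul hη4 h5 h8 (by norm_num)
        _ = ε / 16 := by ring
    have e7 : (1 - η) ^ (-s) * (c' / J) ≤ ε / 16 :=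
      (mul_le_mul_of_nonneg_right hη4 (by positivity)).trans hJ
    rw [e1]
    linarith only [hη, e4, e5, e6, e7]
  -- δ
  obtain ⟨δ, hδ0, hδ8, hδ⟩ := exists_delta (a := a) (show 0 < ε / 4 by positivity)
  obtain ⟨N₂', hext⟩ := extraction h0 h2 hδ0 (show δ < 1 / 4 by linarith only [hδ0, hδ8])
  obtain ⟨N₄, hN₄⟩ := eventually_atTop.1
    ((tendsto_natCast_atTop_atTop (R := ℝ)).eventually_ge_atTop (1 / δ))
  refine ⟨max (max N₀ N₂') N₄, fun N hN => ?_⟩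
  have hNN₀ : N₀ ≤ N := (le_max_left _ _).trans ((le_max_left _ _).trans hN)
  have hNN₂ : N₂' ≤ N := (le_max_right _ _).trans ((le_max_left _ _).trans hN)
  have hNδ : 1 / δ ≤ (N : ℝ) := hN₄ N ((le_max_right _ _).trans hN)
  have hN1 : 1 ≤ N := hA3.trans hNN₀
  have hN' : (0 : ℝ) < N := by exact_mod_cast hN1
  have hδ1 : 0 < 1 - δ := by linarith only [hδ0, hδ8]
  set N₁ : ℕ := ⌈(N : ℝ) / (1 - δ)⌉₊ with hN₁def
  have hc1 : (N : ℝ) / (1 - δ) ≤ N₁ := Nat.le_ceil _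
  have hc2 : (N₁ : ℝ) < (N : ℝ) / (1 - δ) + 1 := Nat.ceil_lt_add_one (by positivity)
  have hb1 : (N : ℝ) ≤ (1 - δ) * N₁ := by
    rw [div_le_iff₀ hδ1] at hc1; linarith only [hc1]
  have hNN₁ : (N : ℝ) ≤ N₁ := by
    have h3 : 0 ≤ δ * (N₁ : ℝ) := mul_nonneg hδ0.le (Nat.cast_nonneg _)
    linarith only [hb1, h3]
  have hNN₁' : N ≤ N₁ := by exact_mod_cast hNN₁
  have hN₁' : (0 : ℝ) < N₁ := by linarith only [hN', hNN₁]
  have hb2 : (1 - 2 * δ) * N₁ ≤ (N : ℝ) := by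
    have h3 : (1 - 2 * δ) * N₁ ≤ (1 - 2 * δ) * ((N : ℝ) / (1 - δ) + 1) :=
      mul_le_mul_of_nonneg_left hc2.le (by linarith only [hδ0, hδ8])
    have h4 : (1 - 2 * δ) * ((N : ℝ) / (1 - δ) + 1) ≤ N := by
      rw [← sub_nonneg]
      have h5 : (N : ℝ) - (1 - 2 * δ) * ((N : ℝ) / (1 - δ) + 1) =
          (N * δ - (1 - 2 * δ) * (1 - δ)) / (1 - δ) := by
        field_simp
        ring
      rw [h5]
      refine div_nonneg ?_ hδ1.le
      rw [div_le_iff₀ hδ0] at hNδ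
      have h6 : δ * δ ≤ 1 / 8 * δ := mul_le_mul_of_nonneg_right hδ8 hδ0.le
      have h7 : (1 - 2 * δ) * (1 - δ) = 1 - 3 * δ + 2 * (δ * δ) := by ring
      rw [h7]
      linarith only [hδ0, hNδ, h6]
    linarith only [h3, h4]
  have hβ := hext N₁ (hNN₂.trans hNN₁') N hb2 hb1
  have hcore := core h2 hc hlb (show η < 1 by linarith only [hη2, hδ0, hδ8]) hup hJ1 hΛ0 hA3 (hNN₀.trans hNN₁') hA1 hβ
  rw [← hG] at hcore
  -- conclusion
  have hP : 0 < (N : ℝ) ^ (1 + s / 2) := by positivity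
  have hP1 : 0 < (N₁ : ℝ) ^ (1 + s / 2) := by positivity
  set L : ℝ := ((1 + δ) / (1 - 2 * δ)) ^ 4 with hL
  have hL1 : 1 ≤ L := by
    refine one_le_pow₀ ?_
    rw [le_div_iff₀ (by linarith only [hδ0, hδ8])]
    linarith only [hδ0]
  set q : ℝ := (N₁ : ℝ) ^ (1 + s / 2) / (N : ℝ) ^ (1 + s / 2) with hq
  have hq1 : 1 ≤ q := by
    rw [hq, le_div_iff₀ hP, one_mul]
    exact Real.rpow_le_rpow hN'.le hNN₁ (by linarith only [h0, hδ0, hδ8])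
  have hq2 : q ≤ 2 := by
    rw [hq, ← Real.div_rpow hN₁'.le hN'.le]
    have h3 : (N₁ : ℝ) / N ≤ 4 / 3 := by
      rw [div_le_iff₀ hN']
      nlinarith only [hb2, hδ8]
    have h3' : 1 ≤ (N₁ : ℝ) / N := by
      rw [le_div_iff₀ hN', one_mul]; exact hNN₁
    calc ((N₁ : ℝ) / N) ^ (1 + s / 2) ≤ ((N₁ : ℝ) / N) ^ (2 : ℝ) :=
          Real.rpow_le_rpow_of_exponent_le h3' (by linarith only [h2])
      _ ≤ (4 / 3 : ℝ) ^ (2 : ℝ) := Real.rpow_le_rpow (by positivity) h3 (by norm_num)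
      _ ≤ 2 := by rw [Real.rpow_two]; norm_num
  have h3 : L * f s N ≤ q * G := by
    have h4 : L * f s N = L * (minE s N - Cc s * (N : ℝ) ^ 2) / (N : ℝ) ^ (1 + s / 2) := by
      rw [f]; ring
    have h5 : q * G = (N₁ : ℝ) ^ (1 + s / 2) * G / (N : ℝ) ^ (1 + s / 2) := by
      rw [hq]; ring
    rw [h4, h5]
    exact div_le_div_of_nonneg_right hcore hP.le
  have h4 : q * G ≤ f s N₀ + ε / 2 := by
    have h5 : q * G ≤ q * (f s N₀ + ε / 4) := mul_le_mul_of_nonneg_left hGle (by linarith only [hδ0, hδ8, hq1])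
    nlinarith only [h5, hε, hq2, hη0, hη2, hf0, hq1]
  have h6 := hfa N hN1
  have h7 : (L - 1) * -a ≤ (L - 1) * f s N := mul_le_mul_of_nonneg_left h6 (by linarith only [hL1])
  change f s N ≤ f s N₀ + ε
  linarith only [hε, hδ, h3, h4, h7]

theorem exists_limit {s : ℝ} (h0 : 0 < s) (h2 : s < 2) : ∃ c : ℝ, c < 0 ∧
    Tendsto (fun N : ℕ => (minE s N - Cc s * (N : ℝ) ^ 2) / (N : ℝ) ^ (1 + s / 2)) atTop
      (𝓝 c) := by
  obtain ⟨a, ha, hfa⟩ := f_bdd h0 h2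
  have hub : IsBoundedUnder (· ≤ ·) atTop (f s) :=
    ⟨0, eventually_map.2 (eventually_atTop.2 ⟨1, fun N hN => f_nonpos h0 h2 hN⟩)⟩
  have hlb : IsBoundedUnder (· ≥ ·) atTop (f s) :=
    ⟨-a, eventually_map.2 (eventually_atTop.2 ⟨1, fun N hN => hfa N hN⟩)⟩
  have hle : limsup (f s) atTop ≤ liminf (f s) atTop := by
    refine le_of_forall_pos_le_add fun ε hε => ?_
    obtain ⟨N₂, hN₂⟩ := almost_decreasing h0 h2 hε
    rw [← sub_le_iff_le_add]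
    refine le_liminf_of_le hub.isCoboundedUnder_flip (eventually_atTop.2 ⟨N₂, fun N₀ hN₀ => ?_⟩)
    rw [sub_le_iff_le_add]
    obtain ⟨N₃, hN₃⟩ := hN₂ N₀ hN₀
    exact limsup_le_of_le hlb.isCoboundedUnder_flip (eventually_atTop.2 ⟨N₃, hN₃⟩)
  have hT : Tendsto (f s) atTop (𝓝 (liminf (f s) atTop)) :=
    tendsto_of_le_liminf_of_limsup_le le_rfl hle hub hlb
  refine ⟨liminf (f s) atTop, ?_, hT⟩
  obtain ⟨b, hb, hneg⟩ := negative h0 h2
  have h3 : ∀ᶠ N : ℕ in atTop, f s N ≤ -b := by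
    filter_upwards [hneg, eventually_ge_atTop 1] with N hN hN1
    have hN' : (0 : ℝ) < N := by exact_mod_cast hN1
    rw [f, div_le_iff₀ (by positivity)]
    exact hN
  exact (le_of_tendsto hT h3).trans_lt (by linarith)

end Pool.Agent.Helper42.RZ
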